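import Pool.Agent.Lib.MP_4f5308_an.Norming

namespace Pool.Agent.Lib.MP_4f5308_an

open Finset KS

/-- the norming family -/
def famX : Fam where
  W := {f | ∃ v, Fn v f}
  nonneg := fun _ ⟨_, h⟩ => h.nonneg
  single_mem n := ⟨none, Fn.leaf n 1 zero_le_one le_rfl⟩
  bdd n := ⟨1, fun _ ⟨_, h⟩ => h.le_one n⟩

/-- the main space -/
abbrev XX : Type := KS famX

theorem Fn.pr_le {v : Option ℕ} {f : ℕ →₀ ℝ} (h : Fn v f) (x : XX) : pr f |x.ev| ≤ ‖x‖ :=
  x.pr_le_norm ⟨v, h⟩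

theorem norm_e_le (n : ℕ) : ‖(e n : XX)‖ ≤ 1 := by
  refine norm_le _ fun f ⟨v, hf⟩ => ?_
  rw [pr_eq_of _ _ {n} (fun m hm => by simp [mem_singleton.not.1 hm])]
  simpa using hf.le_one n

theorem lower {j L : ℕ} (hj : Even j) (hL : L ≤ nn j) {a : ℕ → ℕ} {u : ℕ → XX}
    (hu : Blk a fun l => (u l).ev) {r : ℝ} (hr : ∀ l, r < ‖u l‖) :
    L * r / mm j ≤ ‖∑ l ∈ range L, u l‖ := by
  choose f hf hfr using fun l => (u l).exists_pr (hr l)
  choose v hv using hf
  set g : ℕ → ℕ →₀ ℝ := fun l => (f l).filter fun x => a l ≤ x ∧ x < a (l + 1) with hg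
  have hgs : Blk a fun l => g l := ⟨hu.1, fun l x hx => by
    by_contra h
    exact hx (Finsupp.filter_apply_neg _ _ h)⟩
  have hF := Fn.node j L a g v hL hgs (fun l => (hv l).filter _)
    (fun h => absurd hj (Nat.not_even_iff_odd.2 h))
  refine le_trans ?_ (hF.pr_le _)
  simp only [map_smul, LinearMap.smul_apply, smul_eq_mul, map_sum pr, LinearMap.sum_apply]
  rw [one_div, ← div_eq_inv_mul]
  refine div_le_div_of_nonneg_right ?_ (mm_pos j).le
  have : ∀ l ∈ range L, r ≤ pr (g l) |(∑ l ∈ range L, u l).ev| := by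
    intro l hl
    refine (hfr l).le.trans (pr_le_pr fun n => ?_)
    simp only [hg, Finsupp.filter_apply, Pi.abs_apply, ev_sum, Finset.sum_apply]
    split_ifs with h
    · rw [sum_eq_single l (fun l' _ hne => by_contra fun h0 =>
        hne (blk_unique hu.1 (hu.2 l' n h0) h)) (fun h0 => absurd hl h0)]
    · have : (u l).ev n = 0 := by_contra fun h0 => h (hu.2 l n h0)
      simp [this]
  simpa using card_nsmul_le_sum _ _ _ this

theorem exists_block {F : Fam} {M : Submodule ℝ (KS F)} (hM : Inf M) {ε : ℝ} (hε : 0 < ε)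
    (hε' : ε ≤ 1 / 2) (p : ℕ) : ∃ (q : ℕ) (u z : KS F), p ≤ q ∧ z ∈ M ∧
      (∀ x, u.ev x ≠ 0 → p ≤ x ∧ x < q) ∧ 1 / 2 ≤ ‖u‖ ∧ ‖u‖ ≤ 1 ∧ ‖z - u‖ ≤ ε := by
  obtain ⟨z, hz, hz1⟩ := (hM.inf_ker (co p)).exists_unit
  obtain ⟨q, hq⟩ := z.exists_tail hε
  have h1 := hq (max p q) (le_max_right _ _)
  refine ⟨max p q, P (· < max p q) z, z, le_max_left _ _, hz.1, fun x hx => ?_, ?_,
    (norm_P_le _ _).trans hz1.le, h1⟩
  · rw [ev_P] at hx
    split_ifs at hx with h
    · exact ⟨by_contra fun h2 => hx (co_eq_zero.1 hz.2 x (not_le.1 h2)), h⟩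
    · exact absurd rfl hx
  · have := norm_sub_norm_le z (P (· < max p q) z)
    linarith

theorem exists_blocks {F : Fam} {M : Submodule ℝ (KS F)} (hM : Inf M) {ε : ℝ} (hε : 0 < ε)
    (hε' : ε ≤ 1 / 2) (p : ℕ) : ∃ (a : ℕ → ℕ) (u z : ℕ → KS F), a 0 = p ∧
      (Blk a fun l => (u l).ev) ∧ ∀ l, z l ∈ M ∧ 1 / 2 ≤ ‖u l‖ ∧ ‖u l‖ ≤ 1 ∧ ‖z l - u l‖ ≤ ε := by
  choose q u z h1 h2 h3 h4 using exists_block hM hε hε'
  let a : ℕ → ℕ := fun l => Nat.rec p (fun _ x => q x) l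
  exact ⟨a, fun l => u (a l), fun l => z (a l), rfl,
    ⟨monotone_nat_of_le_succ fun l => h1 (a l), fun l => h3 (a l)⟩,
    fun l => ⟨h2 (a l), h4 (a l)⟩⟩

theorem sum_range_mul' {G : Type} [AddCommMonoid G] (u : ℕ → G) (L N : ℕ) :
    ∑ l ∈ range (L * N), u l = ∑ i ∈ range N, ∑ l ∈ range L, u (i * L + l) := by
  induction N with
  | zero => simp
  | succ N ih => rw [mul_add, mul_one, sum_range_add, ih, sum_range_succ, mul_comm N L]

theorem blk_sum {F : Fam} {a : ℕ → ℕ} {u : ℕ → KS F} (hu : Blk a fun l => (u l).ev) (p L x : ℕ)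
    (hx : (∑ l ∈ range L, u (p + l)).ev x ≠ 0) : a p ≤ x ∧ x < a (p + L) := by
  rw [ev_sum, Finset.sum_apply] at hx
  obtain ⟨l, hl, h0⟩ := exists_ne_zero_of_sum_ne_zero hx
  have h1 := hu.2 _ x h0
  have h2 := hu.1 (show p ≤ p + l by omega)
  have h3 := hu.1 (show p + l + 1 ≤ p + L by have := mem_range.1 hl; omega)
  exact ⟨h2.trans h1.1, h1.2.trans_le h3⟩

theorem exists_avg {M : Submodule ℝ XX} (hM : Inf M) {ε : ℝ} (hε : 0 < ε) (p N : ℕ)
    (hN : 2 ≤ N) : ∃ (q : ℕ) (y z : XX), z ∈ M ∧ (∀ x, y.ev x ≠ 0 → p ≤ x ∧ x < q) ∧ ‖y‖ = 1 ∧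
      ‖z - y‖ ≤ ε ∧ ∀ w f, Fn (some w) f → nn w ^ 2 ≤ N → pr f |y.ev| ≤ 4 / mm w := by
  set j := 2 * N with hj
  set k := mm j ^ 2 + 3 with hk
  have hN' : (2 : ℝ) ≤ N := by exact_mod_cast hN
  have hNk : N ^ k ≤ nn j := Nat.pow_le_pow_left (by have := lt_mm j; omega) _
  obtain ⟨a, u, z, ha0, hu, hz⟩ := exists_blocks hM (ε := min (1 / 2) (ε / (N : ℝ) ^ k))
    (by positivity) (min_le_left _ _) p
  obtain ⟨s, hsk, hs, p', hp'⟩ : ∃ s < k, (∀ p', ‖∑ l ∈ range (N ^ s), u (p' + l)‖ ≤ (N / 2) ^ s) ∧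
      ∃ p', (N / 2 : ℝ) ^ (s + 1) < ‖∑ l ∈ range (N ^ (s + 1)), u (p' + l)‖ := by
    by_contra hc
    push Not at hc
    have h1 : ∀ s ≤ k, ∀ p', ‖∑ l ∈ range (N ^ s), u (p' + l)‖ ≤ (N / 2) ^ s := by
      intro s
      induction s with
      | zero => intro _ p'; simpa using (hz p').2.2.1
      | succ s ih => intro hs; exact hc s hs (ih (by omega))
    have h2 := h1 k le_rfl 0
    have h3 := lower (j := j) (even_two_mul N) hNk hu (r := 1 / 4)
      (fun l => by linarith [(hz l).2.1])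
    simp only [zero_add] at h2
    have h4 := h3.trans h2
    have h5 : (4 : ℝ) * mm j < 2 ^ k := by
      have h6 : mm j ^ 2 < 2 ^ (mm j ^ 2) := Nat.lt_two_pow_self
      have h7 : mm j ≤ mm j ^ 2 := Nat.le_self_pow (by omega) _
      have : 4 * mm j < 2 ^ k := by rw [hk, pow_add]; omega
      exact_mod_cast this
    have hm := mm_pos j
    rw [div_pow, div_le_div_iff₀ hm (by positivity)] at h4
    push_cast at h4
    have : (0 : ℝ) < (N : ℝ) ^ k := by positivity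
    nlinarith
  set V := ∑ l ∈ range (N ^ (s + 1)), u (p' + l) with hV
  have hν1 : 1 ≤ ‖V‖ := le_trans (one_le_pow₀ (by linarith)) hp'.le
  have hν : 0 < ‖V‖ := by linarith
  refine ⟨a (p' + N ^ (s + 1)), ‖V‖⁻¹ • V, ‖V‖⁻¹ • ∑ l ∈ range (N ^ (s + 1)), z (p' + l),
    M.smul_mem _ (M.sum_mem fun l _ => (hz _).1), fun x hx => ?_, ?_, ?_, ?_⟩
  · have h1 := blk_sum hu p' _ x (right_ne_zero_of_mul hx)
    have h2 := hu.1 (Nat.zero_le p')
    exact ⟨by omega, h1.2⟩
  · rw [norm_smul, norm_inv, norm_norm, inv_mul_cancel₀ hν.ne']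
  · rw [← smul_sub, norm_smul, norm_inv, norm_norm, hV, ← sum_sub_distrib, ← hV]
    have h1 : ‖∑ l ∈ range (N ^ (s + 1)), (z (p' + l) - u (p' + l))‖ ≤ ε := by
      refine (norm_sum_le _ _).trans ((sum_le_card_nsmul _ _ (ε / (N : ℝ) ^ k) fun l _ =>
        (hz _).2.2.2.trans (min_le_right _ _)).trans ?_)
      rw [card_range, nsmul_eq_mul, ← mul_div_assoc, div_le_iff₀ (by positivity), mul_comm]
      push_cast
      gcongr
      · linarith
      · omega
    calc _ ≤ 1 * ε := by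
          gcongr
          exact inv_le_one_of_one_le₀ hν1
      _ = ε := one_mul ε
  · intro w f hf hw
    set Y : ℕ → ℕ → ℝ := fun i => ‖V‖⁻¹ • |(∑ l ∈ range (N ^ s), u (p' + i * N ^ s + l)).ev|
      with hY
    have hblk : Blk (fun i => a (p' + i * N ^ s)) Y := by
      refine ⟨fun i i' hi => hu.1 (by have := Nat.mul_le_mul_right (N ^ s) hi; omega),
        fun i x hx => ?_⟩
      have := blk_sum hu (p' + i * N ^ s) (N ^ s) x (abs_ne_zero.1 (right_ne_zero_of_mul hx))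
      simp only [add_mul, one_mul, ← add_assoc]
      exact this
    have hC : ∀ v g, Fn v g → ∀ i, pr g (Y i) ≤ 2 / N := by
      intro v g hg i
      rw [hY]
      simp only [map_smul, smul_eq_mul]
      rw [inv_mul_le_iff₀ hν]
      refine (hg.pr_le _).trans ((hs _).trans ?_)
      calc (N / 2 : ℝ) ^ s = (N / 2) ^ (s + 1) * (2 / N) := by rw [pow_succ]; field_simp
        _ ≤ _ := by gcongr
    have h1 := node_bound hblk (C := 2 / N) (α := 0) (β := 2 / N) (by positivity) le_rfl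
      (by positivity) hC (fun v g hg B => by
        refine (sum_le_card_nsmul _ _ _ fun i _ => hC v g hg i).trans ?_
        rw [nsmul_eq_mul, zero_add, mul_comm]) hf (range N) le_rfl
    have h2 : pr f |(‖V‖⁻¹ • V).ev| ≤ ∑ i ∈ range N, pr f (Y i) := by
      rw [← map_sum]
      refine pr_mono hf.nonneg fun n => ?_
      have hVV : V = ∑ i ∈ range N, ∑ l ∈ range (N ^ s), u (p' + i * N ^ s + l) := by
        rw [hV, pow_succ, sum_range_mul']
        simp only [add_assoc]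
      simp only [hY, Pi.abs_apply, ev_smul, Pi.smul_apply, smul_eq_mul, Finset.sum_apply, abs_mul,
        abs_inv, abs_norm]
      rw [← mul_sum]
      refine mul_le_mul_of_nonneg_left ?_ (by positivity)
      rw [hVV, ev_sum, Finset.sum_apply]
      exact abs_sum_le_sum_abs _ _
    refine h2.trans (h1.trans (div_le_div_of_nonneg_right ?_ (mm_pos w).le))
    have h3 : ((nn w : ℝ)) ^ 2 ≤ N := by exact_mod_cast hw
    have h4 : (2 : ℝ) / N * N = 2 := by field_simp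
    have h5 : (2 : ℝ) / N * (nn w : ℝ) ^ 2 ≤ 2 / N * N := by gcongr
    rw [card_range]
    linarith

theorem exists_signs {ι : Type} (s : Finset ι) (a : ι → ι → ℝ) : ∃ ε : ι → ℝ,
    (∀ i, ε i = 1 ∨ ε i = -1) ∧ ∑ i ∈ s, a i i ≤ ∑ i ∈ s, ∑ j ∈ s, ε i * ε j * a i j := by
  classical
  induction s using Finset.induction_on with
  | empty => exact ⟨fun _ => 1, fun _ => Or.inl rfl, by simp⟩
  | insert k s hk ih =>
    obtain ⟨ε, h1, h2⟩ := ih
    have key : ∀ c : ℝ, c * c = 1 → ∑ i ∈ insert k s, ∑ j ∈ insert k s,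
        Function.update ε k c i * Function.update ε k c j * a i j =
        a k k + c * (∑ j ∈ s, ε j * (a k j + a j k)) + ∑ i ∈ s, ∑ j ∈ s, ε i * ε j * a i j := by
      intro c hc
      have hu : ∀ i ∈ s, Function.update ε k c i = ε i := fun i hi =>
        Function.update_of_ne (by rintro rfl; exact hk hi) _ _
      simp only [sum_insert hk, Function.update_self, sum_add_distrib, hc, one_mul]
      rw [sum_congr rfl fun j hj => by rw [hu j hj],
        sum_congr rfl (f := fun i => Function.update ε k c i * c * a i k) fun j hj => by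
          rw [hu j hj],
        sum_congr rfl (f := fun i => ∑ j ∈ s, Function.update ε k c i * Function.update ε k c j *
          a i j) (g := fun i => ∑ j ∈ s, ε i * ε j * a i j) fun i hi =>
            sum_congr rfl fun j hj => by rw [hu i hi, hu j hj]]
      simp only [mul_add, sum_add_distrib, mul_sum]
      have e1 : ∑ j ∈ s, c * ε j * a k j = ∑ j ∈ s, c * (ε j * a k j) :=
        sum_congr rfl fun j _ => by ring
      have e2 : ∑ j ∈ s, ε j * c * a j k = ∑ j ∈ s, c * (ε j * a j k) :=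
        sum_congr rfl fun j _ => by ring
      rw [e1, e2]; ring
    have hs : ∀ c : ℝ, c = 1 ∨ c = -1 → ∀ i, Function.update ε k c i = 1 ∨
        Function.update ε k c i = -1 := by
      intro c hc i
      by_cases h : i = k
      · subst h; simpa using hc
      · rw [Function.update_of_ne h]; exact h1 i
    rcases le_total 0 (∑ j ∈ s, ε j * (a k j + a j k)) with h | h
    · refine ⟨_, hs 1 (Or.inl rfl), ?_⟩
      rw [key 1 (by norm_num), sum_insert hk]; linarith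
    · refine ⟨_, hs (-1) (Or.inr rfl), ?_⟩
      rw [key (-1) (by norm_num), sum_insert hk]; linarith

theorem exists_split {ι : Type} (s : Finset ι) (b : ι → ι → ℝ) (hb : ∀ i, b i i = 0) :
    ∃ θ : ι → ℝ, (∀ i, θ i = 0 ∨ θ i = 1) ∧
      (∑ i ∈ s, ∑ j ∈ s, b i j) / 4 ≤ ∑ i ∈ s, ∑ j ∈ s, (1 - θ i) * θ j * b i j := by
  obtain ⟨ε, h1, h2⟩ := exists_signs s fun i j => -b i j
  simp only [hb, neg_zero, sum_const_zero] at h2
  have key : ∀ c : ℝ, c * c = 1 →
      ∑ i ∈ s, ∑ j ∈ s, (1 - (1 + c * ε i) / 2) * ((1 + c * ε j) / 2) * b i j =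
      (∑ i ∈ s, ∑ j ∈ s, b i j) / 4 + c * (∑ i ∈ s, ∑ j ∈ s, (ε j - ε i) * b i j) / 4 +
        (∑ i ∈ s, ∑ j ∈ s, ε i * ε j * -b i j) / 4 := by
    intro c hc
    simp only [sum_div, mul_sum, ← sum_add_distrib]
    refine sum_congr rfl fun i _ => sum_congr rfl fun j _ => ?_
    linear_combination (-(ε i * ε j * b i j) / 4) * hc
  have hs : ∀ c : ℝ, c = 1 ∨ c = -1 → ∀ i, (1 + c * ε i) / 2 = 0 ∨ (1 + c * ε i) / 2 = 1 := by
    intro c hc i
    rcases hc with rfl | rfl <;> rcases h1 i with h | h <;> rw [h] <;> norm_num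
  rcases le_total 0 (∑ i ∈ s, ∑ j ∈ s, (ε j - ε i) * b i j) with h | h
  · refine ⟨_, hs 1 (Or.inl rfl), ?_⟩
    rw [key 1 (by norm_num)]; linarith
  · refine ⟨_, hs (-1) (Or.inr rfl), ?_⟩
    rw [key (-1) (by norm_num)]; linarith

end Pool.Agent.Lib.MP_4f5308_an
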