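import Mathlib

namespace Pool.Agent.Lib.MP_4f5308_an

open Filter Topology

universe u

/-- An operator is strictly singular if its restriction to no closed infinite-dimensional subspace
is an isomorphism onto its image (a topological embedding). -/
def StrictlySingular {X Y : Type} [NormedAddCommGroup X] [NormedSpace ℝ X]
    [NormedAddCommGroup Y] [NormedSpace ℝ Y] (T : X →L[ℝ] Y) : Prop :=
  ¬ ∃ N : Submodule ℝ X, IsClosed (N : Set X) ∧ ¬ FiniteDimensional ℝ N ∧
    IsEmbedding (T.comp N.subtypeL)

/-- The closed linear span of a sequence. -/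
def cspan {E : Type} [NormedAddCommGroup E] [NormedSpace ℝ E] (x : ℕ → E) : Submodule ℝ E :=
  (Submodule.span ℝ (Set.range x)).topologicalClosure

/-- A disjoint sequence of non-zero vectors. -/
def DisjointSeq {E : Type} [AddCommGroup E] [Lattice E] (x : ℕ → E) : Prop :=
  (∀ n, x n ≠ 0) ∧ ∀ n m, n ≠ m → |x n| ⊓ |x m| = 0

/-- Disjointly strictly singular operators. -/
def DSS {E Y : Type} [NormedAddCommGroup E] [NormedSpace ℝ E] [Lattice E]
    [NormedAddCommGroup Y] [NormedSpace ℝ Y] (T : E →L[ℝ] Y) : Prop :=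
  ¬ ∃ x : ℕ → E, DisjointSeq x ∧ IsEmbedding (T.comp (cspan x).subtypeL)

/-- Disjointly non-singular operators. -/
def DNS {E Y : Type} [NormedAddCommGroup E] [NormedSpace ℝ E] [Lattice E]
    [NormedAddCommGroup Y] [NormedSpace ℝ Y] (T : E →L[ℝ] Y) : Prop :=
  ¬ ∃ x : ℕ → E, DisjointSeq x ∧ StrictlySingular (T.comp (cspan x).subtypeL)

/-- Order continuity: every decreasing net with infimum zero converges to zero in norm. -/
def OrderContinuous (E : Type) [NormedAddCommGroup E] [Lattice E] : Prop :=
  ∀ (ι : Type u) [Preorder ι] [IsDirectedOrder ι] [Nonempty ι] (x : ι → E),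
    Antitone x → IsGLB (Set.range x) 0 → Tendsto x atTop (𝓝 0)

end Pool.Agent.Lib.MP_4f5308_an
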