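import Pool.Agent.Lib.MP_4f5308_an.Avg

namespace Pool.Agent.Lib.MP_4f5308_an

open Finset KS

/-- a sign -/
noncomputable def sg (t : ℝ) : ℝ := if 0 ≤ t then 1 else -1

theorem sg_mul (t : ℝ) : sg t * t = |t| := by
  unfold sg
  split_ifs with h
  · rw [one_mul, abs_of_nonneg h]
  · rw [abs_of_neg (not_le.1 h)]; ring

theorem sg_mul_le (t u : ℝ) : sg t * u ≤ |u| := by
  unfold sg
  split_ifs with h
  · rw [one_mul]; exact le_abs_self u
  · rw [neg_one_mul]; exact neg_le_abs u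

theorem abs_sg (t : ℝ) : |sg t| = 1 := by
  unfold sg; split_ifs <;> simp

theorem apply_ev {F : Fam} (S : KS F →L[ℝ] KS F) (y : KS F) (I : Finset ℕ)
    (h : ∀ n, n ∉ I → y.ev n = 0) (n : ℕ) :
    (S y).ev n = ∑ m ∈ I, y.ev m * (S (e m)).ev n := by
  conv_lhs => rw [y.eq_sum_e I h]
  simp [map_sum]

theorem exists_pair {S : XX →L[ℝ] XX} (h0 : ∀ n, (S (e n)).ev n = 0) {M : Submodule ℝ XX}
    (hM : Inf M) {c : ℝ} (hc : 0 < c) (hb : ∀ x ∈ M, c * ‖x‖ ≤ ‖S x‖) (p N : ℕ) (hN : 2 ≤ N) :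
    ∃ (q : ℕ) (y : XX) (f : ℕ →₀ ℝ) (v : Option ℕ), p ≤ q ∧ Fn v f ∧
      (∀ x, y.ev x ≠ 0 → p ≤ x ∧ x < q) ∧ (∀ x, f x ≠ 0 → p ≤ x ∧ x < q) ∧
      (∀ x, f x ≠ 0 → y.ev x = 0) ∧ ‖y‖ ≤ 1 ∧ c / 16 ≤ pr f |(S y).ev| ∧
      ∀ w g, Fn (some w) g → nn w ^ 2 ≤ N → pr g |y.ev| ≤ 4 / mm w := by
  classical
  set ε := c / 2 / (c + 2 * ‖S‖ + 1) with hε
  have hε0 : 0 < ε := by positivity
  have hε1 : ε * (c + 2 * ‖S‖ + 1) = c / 2 := div_mul_cancel₀ _ (by positivity)
  obtain ⟨q0, y, z, hz, hy, hy1, hzy, hw⟩ :=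
    exists_avg (hM.inf_ker ((co p).comp (S : XX →ₗ[ℝ] XX))) hε0 p N hN
  obtain ⟨q1, hq1⟩ := (S y).exists_tail hε0
  set q := max p (max q0 q1) with hq
  have h1 : c / 2 ≤ ‖P (· ∈ Ico p q) (S y)‖ := by
    have e1 : S y = P (· ∈ Ico p q) (S y) + (S y - P (· < q) (S y)) - P (· < p) (S (z - y)) := by
      ext n
      have hz2 : ∀ n < p, (S z).ev n = 0 := co_eq_zero.1 hz.2
      simp only [ev_add, ev_sub, Pi.add_apply, Pi.sub_apply, ev_P, map_sub, mem_Ico]
      by_cases hn : n < p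
      · rw [if_neg (by omega), if_pos (by omega), if_pos hn, if_pos hn, hz2 n hn]; ring
      · by_cases hn' : n < q
        · rw [if_pos (by omega), if_pos hn', if_neg hn, if_neg hn]; ring
        · rw [if_neg (by omega), if_neg hn', if_neg hn, if_neg hn]; ring
    have e2 : ‖S (z - y)‖ ≤ ‖S‖ * ε := (S.le_opNorm _).trans (by gcongr)
    have e3 := hq1 q (by omega)
    have e4 : ‖S y‖ ≤ ‖P (· ∈ Ico p q) (S y)‖ + ε + ‖S‖ * ε := by
      conv_lhs => rw [e1]
      exact (norm_sub_le _ _).trans (add_le_add ((norm_add_le _ _).trans (by gcongr))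
        ((norm_P_le _ _).trans e2))
    have e5 := hb z hz.1
    have e6 : ‖S z‖ ≤ ‖S y‖ + ‖S‖ * ε := by
      have : S z = S y + S (z - y) := by rw [map_sub]; abel
      rw [this]
      exact (norm_add_le _ _).trans (by gcongr)
    have e7 : 1 - ε ≤ ‖z‖ := by
      have := norm_sub_norm_le y z
      rw [norm_sub_rev] at this
      linarith
    nlinarith
  obtain ⟨f, ⟨v, hf⟩, hf1⟩ := exists_pr (P (· ∈ Ico p q) (S y)) (r := c / 4) (by linarith)
  have hyI : ∀ n, n ∉ Ico p q → y.ev n = 0 := fun n hn => by_contra fun h => hn (by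
    have := hy n h
    rw [mem_Ico]; omega)
  obtain ⟨θ, hθ, hθ2⟩ := exists_split (Ico p q)
    (fun n m => f n * sg ((S y).ev n) * (y.ev m * (S (e m)).ev n)) (fun n => by simp [h0])
  have hPy : ∀ n, (P (θ · = 1) y).ev n = θ n * y.ev n := by
    intro n
    rw [ev_P]
    rcases hθ n with h | h <;> simp [h]
  have hle : ∀ n, |(P (θ · = 1) y).ev n| ≤ |y.ev n| := fun n => by
    rw [ev_P]; split_ifs <;> simp
  refine ⟨q, P (θ · = 1) y, f.filter fun n => n ∈ Ico p q ∧ θ n = 0, v, le_max_left _ _,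
    hf.filter _, fun x hx => ?_, fun x hx => ?_, fun x hx => ?_, (norm_P_le _ _).trans hy1.le, ?_,
    fun w g hg hN => (pr_mono hg.nonneg hle).trans (hw w g hg hN)⟩
  · rw [hPy] at hx
    exact mem_Ico.1 (by_contra fun h => right_ne_zero_of_mul hx (hyI x h))
  · exact mem_Ico.1 (by_contra fun h => hx (Finsupp.filter_apply_neg _ _ fun h1 => h h1.1))
  · have : θ x = 0 := by_contra fun h => hx (Finsupp.filter_apply_neg _ _ fun h1 => h h1.2)
    rw [hPy, this, zero_mul]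
  · have e1 : pr f |(P (· ∈ Ico p q) (S y)).ev| = ∑ n ∈ Ico p q, ∑ m ∈ Ico p q,
        f n * sg ((S y).ev n) * (y.ev m * (S (e m)).ev n) := by
      rw [pr_eq_of _ _ (Ico p q) (fun n hn => by rw [Pi.abs_apply, ev_P, if_neg hn]; simp)]
      refine sum_congr rfl fun n hn => ?_
      rw [← mul_sum, ← apply_ev S y _ hyI, mul_assoc, sg_mul, Pi.abs_apply, ev_P, if_pos hn]
    rw [← e1] at hθ2
    refine le_trans (by linarith) (hθ2.trans ?_)
    rw [pr_eq_of _ _ (Ico p q) (fun n hn => by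
      rw [Finsupp.filter_apply_neg _ _ fun h1 => hn h1.1, zero_mul])]
    refine sum_le_sum fun n hn => ?_
    have e2 : ∑ m ∈ Ico p q, (1 - θ n) * θ m * (f n * sg ((S y).ev n) * (y.ev m * (S (e m)).ev n))
        = (1 - θ n) * f n * (sg ((S y).ev n) * (S (P (θ · = 1) y)).ev n) := by
      rw [apply_ev S (P (θ · = 1) y) (Ico p q) (fun m hm => by rw [hPy, hyI m hm, mul_zero]),
        mul_sum, mul_sum]
      exact sum_congr rfl fun m _ => by rw [hPy]; ring
    rw [e2, Finsupp.filter_apply]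
    rcases hθ n with h | h
    · rw [if_pos ⟨hn, h⟩, h, sub_zero, one_mul]
      exact mul_le_mul_of_nonneg_left (sg_mul_le _ _) (hf.nonneg n)
    · rw [if_neg (fun h1 => by rw [h] at h1; exact one_ne_zero h1.2), h]
      simp

theorem exists_ris {S : XX →L[ℝ] XX} (h0 : ∀ n, (S (e n)).ev n = 0) {M : Submodule ℝ XX}
    (hM : Inf M) {c : ℝ} (hc : 0 < c) (hb : ∀ x ∈ M, c * ‖x‖ ≤ ‖S x‖) :
    ∃ (b t : ℕ → ℕ) (y : ℕ → XX) (f : ℕ → ℕ →₀ ℝ) (v : ℕ → Option ℕ),
      RIS b t (fun k => |(y k).ev|) ∧ (Blk b fun k => f k) ∧ (∀ k, Fn (v k) (f k)) ∧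
      (∀ k k' x, f k x ≠ 0 → (y k').ev x = 0) ∧ ∀ k, c / 16 ≤ pr (f k) |(S (y k)).ev| := by
  have h2 : ∀ t, 2 ≤ mm t ^ 2 := fun t => (two_le_mm t).trans (Nat.le_self_pow (by omega) _)
  choose q y f v h1 h2 h3 h4 h5 h6 h7 h8 using
    fun s : ℕ × ℕ => exists_pair h0 hM hc hb s.1 (mm s.2 ^ 2) (h2 s.2)
  let σ : ℕ → ℕ × ℕ := fun k => Nat.rec (0, 0) (fun k s => (q s, s.2 + q s * 2 ^ k)) k
  have hσ1 : ∀ k, (σ (k + 1)).1 = q (σ k) := fun k => rfl
  have hσ2 : ∀ k, (σ (k + 1)).2 = (σ k).2 + q (σ k) * 2 ^ k := fun k => rfl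
  have hmono : Monotone fun k => (σ k).1 := monotone_nat_of_le_succ fun k => h1 (σ k)
  refine ⟨fun k => (σ k).1, fun k => (σ k).2, fun k => y (σ k), fun k => f (σ k),
    fun k => v (σ k), ⟨⟨hmono, fun k x hx => h3 (σ k) x (abs_ne_zero.1 hx)⟩,
      monotone_nat_of_le_succ fun k => by simp only [hσ2]; omega,
      fun w g hg k => (hg.pr_le _).trans (h6 _), fun w g k hg hw => h8 _ w g hg ?_,
      fun w g k hg hw => ?_⟩, ⟨hmono, fun k => h4 (σ k)⟩, fun k => h2 _, fun k k' x hx => ?_,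
      fun k => h7 _⟩
  · exact Nat.pow_le_pow_left (nn_le_mm hw) 2
  · rw [pr_eq_of _ _ (range (q (σ k))) (fun n hn => by
      have : (y (σ k)).ev n = 0 := by_contra fun h => hn (mem_range.2 (h3 _ n h).2)
      simp [this])]
    have hm := mm_pos w
    refine (sum_le_card_nsmul _ _ (1 / (mm w : ℝ)) fun n _ => ?_).trans ?_
    · calc _ ≤ 1 / (mm w : ℝ) * 1 := by
            refine mul_le_mul (hg.le_inv n) (((y (σ k)).abs_le_norm n).trans (h6 _))
              (abs_nonneg _) (by positivity)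
        _ = _ := mul_one _
    · have e1 : q (σ k) * 2 ^ k ≤ mm w := by
        have := lt_mm w
        simp only [hσ2] at hw
        omega
      have e2 : (q (σ k) : ℝ) * 2 ^ k ≤ mm w := by exact_mod_cast e1
      rw [card_range, nsmul_eq_mul, one_div_pow, mul_one_div, div_le_div_iff₀ hm (by positivity)]
      linarith
  · by_contra h
    obtain rfl := blk_unique hmono (h4 (σ k) x hx) (h3 (σ k') x h)
    exact h (h5 _ x hx)

theorem kill {F : Fam} (S : KS F →L[ℝ] KS F) {ι : Type} (T : Finset ι) (y : ι → KS F)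
    (h : ι → ℕ →₀ ℝ) (hh : ∀ t n, 0 ≤ h t n) (hW : ∑ t ∈ T, h t ∈ F.W) {R : ℝ}
    (hR : ∀ g ∈ F.W, pr g (∑ t ∈ T, |(y t).ev|) ≤ R) :
    ∑ t ∈ T, pr (h t) |(S (y t)).ev| ≤ ‖S‖ * R := by
  obtain ⟨ε, h1, h2⟩ := exists_signs T
    fun t t' => pr (h t) fun n => sg ((S (y t)).ev n) * (S (y t')).ev n
  have hε : ∀ t, |ε t| = 1 := fun t => by rcases h1 t with h | h <;> simp [h]
  set x := ∑ t ∈ T, ε t • y t with hx
  have e1 : ‖x‖ ≤ R := by
    refine norm_le _ fun g hg => le_trans (pr_mono (F.nonneg g hg) fun n => ?_) (hR g hg)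
    simp only [hx, Pi.abs_apply, ev_sum, Finset.sum_apply, ev_smul, Pi.smul_apply, smul_eq_mul]
    refine (abs_sum_le_sum_abs _ _).trans (le_of_eq (sum_congr rfl fun t _ => ?_))
    rw [abs_mul, hε, one_mul]
  calc _ = ∑ t ∈ T, pr (h t) fun n => sg ((S (y t)).ev n) * (S (y t)).ev n :=
        sum_congr rfl fun t _ => pr_congr fun n => by rw [sg_mul, Pi.abs_apply]
    _ ≤ _ := h2
    _ ≤ ∑ t ∈ T, pr (h t) |(S x).ev| := by
        refine sum_le_sum fun t _ => ?_
        simp only [← smul_eq_mul (α := ℝ) (ε t * _), ← map_smul, ← map_sum]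
        refine pr_mono (hh t) fun n => ?_
        have : (∑ t' ∈ T, (ε t * ε t') • fun n => sg ((S (y t)).ev n) * (S (y t')).ev n) n =
            ε t * sg ((S (y t)).ev n) * (S x).ev n := by
          simp only [hx, map_sum, map_smul, ev_sum, Finset.sum_apply, ev_smul, Pi.smul_apply,
            smul_eq_mul, mul_sum]
          exact sum_congr rfl fun t' _ => by ring
        rw [this]
        refine (le_abs_self _).trans (le_of_eq ?_)
        rw [abs_mul, abs_mul, hε, abs_sg, one_mul, one_mul, Pi.abs_apply]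
    _ = pr (∑ t ∈ T, h t) |(S x).ev| := by simp only [map_sum pr, LinearMap.sum_apply]
    _ ≤ ‖S x‖ := pr_le_norm _ hW
    _ ≤ ‖S‖ * R := (S.le_opNorm x).trans (by gcongr)

/-- operators with zero diagonal are strictly singular -/
theorem small_of_zero_diag {S : XX →L[ℝ] XX} (h0 : ∀ n, (S (e n)).ev n = 0) : Small S ⊤ := by
  rintro M - hM ⟨c, hc, hb⟩
  obtain ⟨b, t, y, f, v, hris, hfb, hf, hdis, hlow⟩ := exists_ris h0 hM hc hb
  obtain ⟨J0, hJ0⟩ := exists_nat_gt (27 * ‖S‖ / (c / 16))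
  set J := 2 * J0 + 1 with hJ
  have hJo : Odd J := ⟨J0, rfl⟩
  choose pick hp1 hp2 hp3 using exists_code
  let E : ℕ → Finset ℕ := fun s => (range s).biUnion fun k => (f k).support
  let σ : ℕ → ℕ × ℕ := fun i => Nat.rec (0, pick (E 0) J)
    (fun _ s => (s.1 + nn s.2, pick (E (s.1 + nn s.2)) s.2)) i
  let s : ℕ → ℕ := fun i => (σ i).1
  let j : ℕ → ℕ := fun i => (σ i).2
  have hs : ∀ i, s (i + 1) = s i + nn (j i) := fun i => rfl
  have hj : StrictMono j := strictMono_nat_of_lt_succ fun i => hp1 _ _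
  have hJj : ∀ i, J < j i := fun i => lt_of_lt_of_le (hp1 _ _) (hj.monotone (Nat.zero_le i))
  have hje : ∀ i, Even (j i) := fun i => by cases i <;> exact hp2 _ _
  have hjc : ∀ i, code (j i) = E (s i) := fun i => by cases i <;> exact hp3 _ _
  have hsm : Monotone s := monotone_nat_of_le_succ fun i => by rw [hs]; omega
  let G : ℕ → ℕ →₀ ℝ := fun i => (1 / (mm (j i) : ℝ)) • ∑ l ∈ range (nn (j i)), f (s i + l)
  have hG : ∀ i, Fn (some (j i)) (G i) := fun i =>
    Fn.node (j i) (nn (j i)) (fun l => b (s i + l)) (fun l => f (s i + l)) (fun l => v (s i + l))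
      le_rfl ⟨fun l l' hl => hfb.1 (by omega), fun l => hfb.2 (s i + l)⟩ (fun l => hf _)
      (fun h => absurd (hje i) (Nat.not_even_iff_odd.2 h))
  have hGs : ∀ i x, G i x ≠ 0 → ∃ k, s i ≤ k ∧ k < s (i + 1) ∧ f k x ≠ 0 := by
    intro i x hx
    simp only [G, Finsupp.smul_apply, Finsupp.finsetSum_apply, smul_eq_mul] at hx
    obtain ⟨l, hl, h1⟩ := exists_ne_zero_of_sum_ne_zero (right_ne_zero_of_mul hx)
    exact ⟨s i + l, by omega, by rw [hs]; have := mem_range.1 hl; omega, h1⟩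
  have hΦ := Fn.node J (nn J) (fun i => b (s i)) G (fun i => some (j i)) le_rfl
    ⟨fun i i' hi => hfb.1 (hsm hi), fun i x hx => by
      obtain ⟨k, h1, h2, h3⟩ := hGs i x hx
      have h4 := hfb.2 k x h3
      exact ⟨(hfb.1 h1).trans h4.1, h4.2.trans_le (hfb.1 h2)⟩⟩ hG
    (fun _ l _ => ⟨j l, rfl, hJj l, fun i hi x hx => by
      obtain ⟨k, h1, h2, h3⟩ := hGs i x hx
      rw [hjc]
      exact mem_biUnion.2 ⟨k, mem_range.2 (h2.trans_le (hsm hi)), Finsupp.mem_support_iff.2 h3⟩⟩)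
  have hm := mm_pos J
  have hn := nn_pos J
  have key := kill S ((range (nn J)).sigma fun i => range (nn (j i)))
    (fun a : (Σ _ : ℕ, ℕ) => ((mm (j a.1) : ℝ) / nn (j a.1)) • y (s a.1 + a.2))
    (fun a => (1 / (mm J : ℝ)) • (1 / (mm (j a.1) : ℝ)) • f (s a.1 + a.2))
    (fun a n => by
      have := mm_pos (j a.1)
      have := (hf (s a.1 + a.2)).nonneg n
      simp only [Finsupp.smul_apply, smul_eq_mul]
      positivity)
    ⟨some J, by
      rw [sum_sigma]
      simp only [← smul_sum]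
      exact hΦ⟩ (R := 27 * (nn J / (mm J : ℝ) ^ 2)) (by
      rintro g ⟨w, hg⟩
      refine le_trans (le_of_eq ?_) (hris.level_two hJo hs hj.injective hJj (fun i k x hx => ?_) hg)
      · rw [sum_sigma, map_sum]
        refine sum_congr rfl fun i _ => ?_
        congr 1
        rw [lv, sum_Ico_eq_sum_range, add_tsub_cancel_left, smul_sum]
        refine sum_congr rfl fun l _ => ?_
        funext n
        have := mm_pos (j i)
        have := nn_pos (j i)
        simp only [ev_smul, Pi.abs_apply, Pi.smul_apply, smul_eq_mul, abs_mul]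
        rw [abs_of_pos (by positivity)]
      · rw [hjc] at hx
        obtain ⟨k', -, hk'⟩ := mem_biUnion.1 hx
        simp [hdis k' k x (Finsupp.mem_support_iff.1 hk')])
  rw [sum_sigma] at key
  have e1 : ∀ i ∈ range (nn J), c / 16 / mm J ≤ ∑ l ∈ range (nn (j i)),
      pr ((1 / (mm J : ℝ)) • (1 / (mm (j i) : ℝ)) • f (s i + l))
        |(S (((mm (j i) : ℝ) / nn (j i)) • y (s i + l))).ev| := by
    intro i _
    have h1 := mm_pos (j i)
    have h2 := nn_pos (j i)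
    refine le_trans (le_of_eq ?_) (card_nsmul_le_sum _ _ (c / 16 / mm J / nn (j i)) fun l _ => ?_)
    · rw [card_range, nsmul_eq_mul]; field_simp
    · have : |(S (((mm (j i) : ℝ) / nn (j i)) • y (s i + l))).ev| =
          ((mm (j i) : ℝ) / nn (j i)) • |(S (y (s i + l))).ev| := by
        funext n
        simp only [map_smul, ev_smul, Pi.abs_apply, Pi.smul_apply, smul_eq_mul, abs_mul]
        rw [abs_of_pos (by positivity)]
      rw [this]
      simp only [map_smul, LinearMap.smul_apply, smul_eq_mul]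
      calc _ = (mm (j i) : ℝ) / nn (j i) * (1 / (mm J : ℝ) * (1 / (mm (j i) : ℝ) * (c / 16))) := by
            field_simp
        _ ≤ _ := by gcongr; exact hlow _
  have e2 := (card_nsmul_le_sum _ _ _ e1).trans key
  rw [card_range, nsmul_eq_mul] at e2
  have e3 : (J0 : ℝ) < mm J := by exact_mod_cast (by have := lt_mm J; omega : J0 < mm J)
  rw [div_lt_iff₀ (by positivity)] at hJ0
  have e4 : (nn J : ℝ) * (c / 16 / mm J) = nn J / (mm J : ℝ) ^ 2 * (mm J * (c / 16)) := by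
    field_simp
  have e5 : (0 : ℝ) < nn J / (mm J : ℝ) ^ 2 := by positivity
  rw [e4] at e2
  have e6 : (J0 : ℝ) * (c / 16) < mm J * (c / 16) := by gcongr
  nlinarith

end Pool.Agent.Lib.MP_4f5308_an
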