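import Pool.Agent.Lib.MP_4f5308_an.SS

namespace Pool.Agent.Lib.MP_4f5308_an

open Finset Topology Filter

/-- pairing of a finitely supported weight with a sequence -/
noncomputable def pr : (ℕ →₀ ℝ) →ₗ[ℝ] (ℕ → ℝ) →ₗ[ℝ] ℝ :=
  Finsupp.linearCombination ℝ fun n => LinearMap.proj n

theorem pr_eq (f : ℕ →₀ ℝ) (x : ℕ → ℝ) : pr f x = ∑ n ∈ f.support, f n * x n := by
  simp [pr, Finsupp.linearCombination_apply, Finsupp.sum, LinearMap.sum_apply]

theorem pr_eq_of (f : ℕ →₀ ℝ) (x : ℕ → ℝ) (s : Finset ℕ) (h : ∀ n, n ∉ s → f n * x n = 0) :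
    pr f x = ∑ n ∈ s, f n * x n := by
  rw [pr_eq]
  refine (sum_subset (subset_union_left (s₂ := s)) ?_).trans
    (sum_subset (subset_union_right (s₁ := f.support)) ?_).symm
  · intro n _ hn; rw [Finsupp.notMem_support_iff.1 hn, zero_mul]
  · intro n _ hn; exact h n hn

theorem pr_single (n : ℕ) (c : ℝ) (x : ℕ → ℝ) : pr (Finsupp.single n c) x = c * x n := by
  simp [pr]

theorem pr_le_pr {f g : ℕ →₀ ℝ} {x y : ℕ → ℝ} (h : ∀ n, f n * x n ≤ g n * y n) :
    pr f x ≤ pr g y := by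
  rw [pr_eq_of f x (f.support ∪ g.support), pr_eq_of g y (f.support ∪ g.support)]
  · exact sum_le_sum fun n _ => h n
  · intro n hn
    rw [Finsupp.notMem_support_iff.1 fun h => hn (mem_union_right _ h), zero_mul]
  · intro n hn
    rw [Finsupp.notMem_support_iff.1 fun h => hn (mem_union_left _ h), zero_mul]

theorem pr_congr {f g : ℕ →₀ ℝ} {x y : ℕ → ℝ} (h : ∀ n, f n * x n = g n * y n) :
    pr f x = pr g y :=
  le_antisymm (pr_le_pr fun n => (h n).le) (pr_le_pr fun n => (h n).ge)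

theorem pr_mono {f : ℕ →₀ ℝ} (hf : ∀ n, 0 ≤ f n) {x y : ℕ → ℝ} (h : ∀ n, x n ≤ y n) :
    pr f x ≤ pr f y := pr_le_pr fun n => mul_le_mul_of_nonneg_left (h n) (hf n)

theorem pr_nonneg {f : ℕ →₀ ℝ} (hf : ∀ n, 0 ≤ f n) {x : ℕ → ℝ} (h : ∀ n, 0 ≤ x n) :
    0 ≤ pr f x := by
  simpa using pr_mono hf (x := 0) h

theorem pr_eq_zero {f : ℕ →₀ ℝ} {x : ℕ → ℝ} (h : ∀ n, f n * x n = 0) : pr f x = 0 := by
  rw [pr_eq]; exact sum_eq_zero fun n _ => h n

/-- a family of weights -/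
structure Fam where
  W : Set (ℕ →₀ ℝ)
  nonneg : ∀ f ∈ W, ∀ n, 0 ≤ f n
  single_mem : ∀ n, Finsupp.single n 1 ∈ W
  bdd : ∀ n, ∃ c, ∀ f ∈ W, f n ≤ c

/-- tail of the modulus -/
def tl (p : ℕ) (x : ℕ → ℝ) : ℕ → ℝ := fun n => if n < p then 0 else |x n|

theorem tl_nonneg (p : ℕ) (x : ℕ → ℝ) (n : ℕ) : 0 ≤ tl p x n := by
  unfold tl; split_ifs <;> simp

namespace Fam

variable (F : Fam)

theorem mem_of_le {x y : ℕ → ℝ} {c : ℝ} (h : ∀ n, |x n| ≤ c * |y n|)
    (hy : ∀ ε > 0, ∃ p, ∀ f ∈ F.W, pr f (tl p y) ≤ ε) :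
    ∀ ε > 0, ∃ p, ∀ f ∈ F.W, pr f (tl p x) ≤ ε := by
  intro ε hε
  obtain ⟨p, hp⟩ := hy (ε / (|c| + 1)) (by positivity)
  refine ⟨p, fun f hf => ?_⟩
  have h1 : pr f (tl p x) ≤ pr f ((|c| + 1) • tl p y) := by
    refine pr_mono (F.nonneg f hf) fun n => ?_
    simp only [tl, Pi.smul_apply, smul_eq_mul]
    split_ifs
    · simp
    · nlinarith [h n, le_abs_self c, abs_nonneg (y n)]
  rw [map_smul, smul_eq_mul] at h1
  have := hp f hf
  rw [le_div_iff₀ (by positivity)] at this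
  linarith

/-- the sequence space as a subspace -/
def sub : Submodule ℝ (ℕ → ℝ) where
  carrier := {x | ∀ ε > 0, ∃ p, ∀ f ∈ F.W, pr f (tl p x) ≤ ε}
  zero_mem' := fun ε hε => ⟨0, fun f _ => by
    rw [pr_eq_zero fun n => by simp [tl]]; exact hε.le⟩
  add_mem' := by
    intro x y hx hy ε hε
    obtain ⟨p, hp⟩ := hx (ε / 2) (by positivity)
    obtain ⟨q, hq⟩ := hy (ε / 2) (by positivity)
    refine ⟨max p q, fun f hf => ?_⟩
    have h1 : pr f (tl (max p q) (x + y)) ≤ pr f (tl p x + tl q y) := by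
      refine pr_mono (F.nonneg f hf) fun n => ?_
      by_cases h : n < max p q
      · simp only [tl, if_pos h]
        exact add_nonneg (tl_nonneg _ _ _) (tl_nonneg _ _ _)
      · have h1 : ¬ n < p := by omega
        have h2 : ¬ n < q := by omega
        simp only [tl, Pi.add_apply, if_neg h, if_neg h1, if_neg h2]
        exact abs_add_le _ _
    rw [map_add] at h1
    linarith [hp f hf, hq f hf]
  smul_mem' := fun c x hx => F.mem_of_le (c := |c|) (fun n => by simp [abs_mul]) hx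

theorem mem_of_supp {x : ℕ → ℝ} {q : ℕ} (h : ∀ n, q ≤ n → x n = 0) : x ∈ F.sub :=
  fun ε hε => ⟨q, fun f _ => by
    rw [pr_eq_zero fun n => ?_]
    · exact hε.le
    · unfold tl
      split_ifs with h1
      · simp
      · simp [h n (by omega)]⟩

theorem sub_of_le {x y : ℕ → ℝ} {c : ℝ} (h : ∀ n, |x n| ≤ c * |y n|) (hy : y ∈ F.sub) :
    x ∈ F.sub := F.mem_of_le h hy

end Fam

/-- the sequence space of a family of weights -/
def KS (F : Fam) : Type := F.sub

namespace KS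

variable {F : Fam}

noncomputable instance : AddCommGroup (KS F) := inferInstanceAs (AddCommGroup F.sub)
noncomputable instance : Module ℝ (KS F) := inferInstanceAs (Module ℝ F.sub)

/-- underlying sequence -/
def ev (x : KS F) : ℕ → ℝ := Subtype.val (p := fun y => y ∈ F.sub) x

/-- constructor -/
def mk (x : ℕ → ℝ) (h : x ∈ F.sub) : KS F := Subtype.mk x h

theorem mem (x : KS F) : x.ev ∈ F.sub := Subtype.property (p := fun y => y ∈ F.sub) x

@[simp] theorem ev_mk (x : ℕ → ℝ) (h : x ∈ F.sub) : (mk x h).ev = x := rfl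

@[ext] theorem ext {x y : KS F} (h : ∀ n, x.ev n = y.ev n) : x = y :=
  Subtype.ext (funext h)

/-- underlying sequence as a linear map -/
def evL : KS F →ₗ[ℝ] (ℕ → ℝ) where
  toFun := ev
  map_add' _ _ := rfl
  map_smul' _ _ := rfl

@[simp] theorem ev_add (x y : KS F) : (x + y).ev = x.ev + y.ev := rfl
@[simp] theorem ev_sub (x y : KS F) : (x - y).ev = x.ev - y.ev := rfl
@[simp] theorem ev_neg (x : KS F) : (-x).ev = -x.ev := rfl
@[simp] theorem ev_zero : (0 : KS F).ev = 0 := rfl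
@[simp] theorem ev_smul (c : ℝ) (x : KS F) : (c • x).ev = c • x.ev := rfl
@[simp] theorem ev_sum {ι : Type} (s : Finset ι) (x : ι → KS F) :
    (∑ i ∈ s, x i).ev = ∑ i ∈ s, (x i).ev := map_sum evL x s

theorem sup_mem {x y : ℕ → ℝ} (hx : x ∈ F.sub) (hy : y ∈ F.sub) : x ⊔ y ∈ F.sub := by
  have h1 : |x| ∈ F.sub := F.sub_of_le (c := 1) (fun n => by simp) hx
  have h2 : |y| ∈ F.sub := F.sub_of_le (c := 1) (fun n => by simp) hy
  refine F.sub_of_le (c := 1) (fun n => ?_) (F.sub.add_mem h1 h2)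
  simp only [Pi.sup_apply, Pi.add_apply, Pi.abs_apply, one_mul]
  rw [abs_of_nonneg (a := |x n| + |y n|) (by positivity)]
  rcases le_total (x n) (y n) with h | h
  · rw [sup_of_le_right h]; linarith [abs_nonneg (x n)]
  · rw [sup_of_le_left h]; linarith [abs_nonneg (y n)]

theorem inf_mem {x y : ℕ → ℝ} (hx : x ∈ F.sub) (hy : y ∈ F.sub) : x ⊓ y ∈ F.sub := by
  have h1 : |x| ∈ F.sub := F.sub_of_le (c := 1) (fun n => by simp) hx
  have h2 : |y| ∈ F.sub := F.sub_of_le (c := 1) (fun n => by simp) hy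
  refine F.sub_of_le (c := 1) (fun n => ?_) (F.sub.add_mem h1 h2)
  simp only [Pi.inf_apply, Pi.add_apply, Pi.abs_apply, one_mul]
  rw [abs_of_nonneg (a := |x n| + |y n|) (by positivity)]
  rcases le_total (x n) (y n) with h | h
  · rw [inf_of_le_left h]; linarith [abs_nonneg (y n)]
  · rw [inf_of_le_right h]; linarith [abs_nonneg (x n)]

noncomputable instance : Lattice (KS F) :=
  Subtype.lattice (P := fun y => y ∈ F.sub) (fun _ _ => sup_mem) (fun _ _ => inf_mem)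

theorem le_def {x y : KS F} : x ≤ y ↔ ∀ n, x.ev n ≤ y.ev n := Iff.rfl
@[simp] theorem ev_sup (x y : KS F) : (x ⊔ y).ev = x.ev ⊔ y.ev := rfl
@[simp] theorem ev_inf (x y : KS F) : (x ⊓ y).ev = x.ev ⊓ y.ev := rfl
@[simp] theorem ev_abs (x : KS F) : (|x|).ev = |x.ev| := rfl

instance : IsOrderedAddMonoid (KS F) where
  add_le_add_left x y h z := fun n => by
    have := le_def.1 h n
    change (x + z).ev n ≤ (y + z).ev n
    simpa using this

instance : PosSMulMono ℝ (KS F) where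
  smul_le_smul_of_nonneg_left c hc x y h := fun n => by
    have := le_def.1 h n
    change (c • x).ev n ≤ (c • y).ev n
    simpa using mul_le_mul_of_nonneg_left this hc

theorem bddAbove (x : KS F) : BddAbove ((fun f => pr f |x.ev|) '' F.W) := by
  obtain ⟨p, hp⟩ := x.mem 1 one_pos
  choose c hc using F.bdd
  refine ⟨1 + ∑ n ∈ range p, c n * |x.ev n|, ?_⟩
  rintro _ ⟨f, hf, rfl⟩
  have h1 : |x.ev| = tl p x.ev + fun n => if n < p then |x.ev n| else 0 := by
    funext n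
    simp only [tl, Pi.add_apply, Pi.abs_apply]
    split_ifs <;> simp
  change pr f |x.ev| ≤ _
  rw [h1, map_add]
  refine add_le_add (hp f hf) ?_
  rw [pr_eq_of _ _ (range p) (fun n hn => by rw [if_neg (by simpa using hn), mul_zero])]
  refine sum_le_sum fun n hn => ?_
  rw [if_pos (mem_range.1 hn)]
  exact mul_le_mul_of_nonneg_right (hc n f hf) (abs_nonneg _)

/-- the norm -/
noncomputable def nrm (x : KS F) : ℝ := sSup ((fun f => pr f |x.ev|) '' F.W)

theorem pr_le_nrm (x : KS F) {f : ℕ →₀ ℝ} (hf : f ∈ F.W) : pr f |x.ev| ≤ nrm x :=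
  le_csSup x.bddAbove ⟨f, hf, rfl⟩

theorem nrm_le (x : KS F) {C : ℝ} (h : ∀ f ∈ F.W, pr f |x.ev| ≤ C) : nrm x ≤ C :=
  csSup_le ⟨_, _, F.single_mem 0, rfl⟩ (by rintro _ ⟨f, hf, rfl⟩; exact h f hf)

theorem abs_le_nrm (x : KS F) (n : ℕ) : |x.ev n| ≤ nrm x := by
  simpa [pr_single] using x.pr_le_nrm (F.single_mem n)

/-- the norm, bundled -/
noncomputable def gnorm : AddGroupNorm (KS F) where
  toFun := nrm
  map_zero' := le_antisymm (nrm_le _ fun f _ => by simp) ((abs_nonneg _).trans (abs_le_nrm _ 0))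
  add_le' x y := nrm_le _ fun f hf => by
    have : pr f |(x + y).ev| ≤ pr f (|x.ev| + |y.ev|) :=
      pr_mono (F.nonneg f hf) fun n => abs_add_le _ _
    rw [map_add] at this
    linarith [x.pr_le_nrm hf, y.pr_le_nrm hf]
  neg' x := by simp [nrm]
  eq_zero_of_map_eq_zero' x hx := by
    ext n
    have := abs_le_nrm x n
    rw [hx] at this
    simpa using this

noncomputable instance : NormedAddCommGroup (KS F) := AddGroupNorm.toNormedAddCommGroup gnorm

theorem pr_le_norm (x : KS F) {f : ℕ →₀ ℝ} (hf : f ∈ F.W) : pr f |x.ev| ≤ ‖x‖ := x.pr_le_nrm hf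

theorem norm_le (x : KS F) {C : ℝ} (h : ∀ f ∈ F.W, pr f |x.ev| ≤ C) : ‖x‖ ≤ C := x.nrm_le h

theorem abs_le_norm (x : KS F) (n : ℕ) : |x.ev n| ≤ ‖x‖ := x.abs_le_nrm n

theorem exists_pr (x : KS F) {r : ℝ} (h : r < ‖x‖) : ∃ f ∈ F.W, r < pr f |x.ev| := by
  by_contra hc
  push Not at hc
  exact absurd (x.norm_le hc) (not_le.2 h)

theorem norm_le_mul {x y : KS F} {c : ℝ} (hc : 0 ≤ c) (h : ∀ n, |x.ev n| ≤ c * |y.ev n|) :
    ‖x‖ ≤ c * ‖y‖ := by
  refine x.norm_le fun f hf => ?_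
  have : pr f |x.ev| ≤ pr f (c • |y.ev|) := pr_mono (F.nonneg f hf) h
  rw [map_smul, smul_eq_mul] at this
  exact this.trans (mul_le_mul_of_nonneg_left (y.pr_le_norm hf) hc)

theorem norm_le_of {x y : KS F} (h : ∀ n, |x.ev n| ≤ |y.ev n|) : ‖x‖ ≤ ‖y‖ := by
  simpa using norm_le_mul (x := x) (y := y) zero_le_one (by simpa using h)

noncomputable instance : NormedSpace ℝ (KS F) where
  norm_smul_le c x := norm_le_mul (norm_nonneg c) fun n => by simp [abs_mul]

instance : HasSolidNorm (KS F) := ⟨fun _ _ h => norm_le_of h⟩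

theorem continuous_pr_abs (f : ℕ →₀ ℝ) (c : ℕ → ℝ) :
    Continuous fun y : ℕ → ℝ => pr f |c - y| := by
  simp only [pr_eq, Pi.abs_apply, Pi.sub_apply]
  fun_prop

instance : CompleteSpace (KS F) := by
  refine Metric.complete_of_cauchySeq_tendsto fun u hu => ?_
  have hc : ∀ n, CauchySeq fun k => (u k).ev n := by
    intro n
    rw [Metric.cauchySeq_iff] at hu ⊢
    intro ε hε
    obtain ⟨N, hN⟩ := hu ε hε
    refine ⟨N, fun a ha b hb => lt_of_le_of_lt ?_ (hN a ha b hb)⟩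
    rw [dist_eq_norm, dist_eq_norm]
    simpa using (u a - u b).abs_le_norm n
  choose x hx using fun n => cauchySeq_tendsto_of_complete (hc n)
  have hx' : Tendsto (fun k => (u k).ev) atTop (𝓝 x) := tendsto_pi_nhds.2 hx
  have key : ∀ ε > 0, ∃ N, ∀ k ≥ N, ∀ f ∈ F.W, pr f |(u k).ev - x| ≤ ε := by
    intro ε hε
    obtain ⟨N, hN⟩ := Metric.cauchySeq_iff.1 hu ε hε
    refine ⟨N, fun k hk f hf => ?_⟩
    refine le_of_tendsto (((continuous_pr_abs f (u k).ev).tendsto x).comp hx') ?_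
    filter_upwards [eventually_ge_atTop N] with l hl
    have := hN k hk l hl
    rw [dist_eq_norm] at this
    exact ((u k - u l).pr_le_norm hf).trans this.le
  have hmem : x ∈ F.sub := by
    intro ε hε
    obtain ⟨N, hN⟩ := key (ε / 2) (by positivity)
    obtain ⟨p, hp⟩ := (u N).mem (ε / 2) (by positivity)
    refine ⟨p, fun f hf => ?_⟩
    have : pr f (tl p x) ≤ pr f (tl p (u N).ev + |(u N).ev - x|) := by
      refine pr_mono (F.nonneg f hf) fun n => ?_
      simp only [tl, Pi.add_apply, Pi.abs_apply, Pi.sub_apply]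
      split_ifs
      · positivity
      · have := abs_sub_abs_le_abs_sub (x n) ((u N).ev n)
        rw [abs_sub_comm] at this
        linarith
    rw [map_add] at this
    linarith [hp f hf, hN N le_rfl f hf]
  refine ⟨mk x hmem, Metric.tendsto_atTop.2 fun ε hε => ?_⟩
  obtain ⟨N, hN⟩ := key (ε / 2) (by positivity)
  refine ⟨N, fun k hk => ?_⟩
  rw [dist_eq_norm]
  exact lt_of_le_of_lt (norm_le _ fun f hf => hN k hk f hf) (by linarith)

/-- diagonal operators -/
noncomputable def D (θ : ℕ → ℝ) (h : ∃ C, ∀ n, |θ n| ≤ C) : KS F →L[ℝ] KS F :=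
  LinearMap.mkContinuousOfExistsBound
    { toFun := fun x => mk (fun n => θ n * x.ev n) (by
        obtain ⟨C, hC⟩ := h
        exact F.sub_of_le (c := C) (fun n => by
          rw [abs_mul]; exact mul_le_mul_of_nonneg_right (hC n) (abs_nonneg _)) x.mem)
      map_add' := fun x y => by ext n; simp [mul_add]
      map_smul' := fun c x => by ext n; simp; ring }
    (by
      obtain ⟨C, hC⟩ := h
      exact ⟨C, fun x => norm_le_mul ((abs_nonneg _).trans (hC 0)) fun n => by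
        simp only [LinearMap.coe_mk, AddHom.coe_mk, ev_mk, abs_mul]
        exact mul_le_mul_of_nonneg_right (hC n) (abs_nonneg _)⟩)

@[simp] theorem ev_D (θ : ℕ → ℝ) (h : ∃ C, ∀ n, |θ n| ≤ C) (x : KS F) (n : ℕ) :
    (D θ h x).ev n = θ n * x.ev n := rfl

/-- band projections -/
noncomputable def P (A : ℕ → Prop) [DecidablePred A] : KS F →L[ℝ] KS F :=
  D (fun n => if A n then 1 else 0) ⟨1, fun n => by split_ifs <;> simp⟩

@[simp] theorem ev_P (A : ℕ → Prop) [DecidablePred A] (x : KS F) (n : ℕ) :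
    (P A x).ev n = if A n then x.ev n else 0 := by
  simp [P]

theorem norm_P_le (A : ℕ → Prop) [DecidablePred A] (x : KS F) : ‖P A x‖ ≤ ‖x‖ :=
  norm_le_of fun n => by rw [ev_P]; split_ifs <;> simp

theorem norm_sub_P_le (A : ℕ → Prop) [DecidablePred A] (x : KS F) : ‖x - P A x‖ ≤ ‖x‖ :=
  norm_le_of fun n => by
    simp only [ev_sub, Pi.sub_apply, ev_P]; split_ifs <;> simp

theorem exists_tail (x : KS F) {ε : ℝ} (hε : 0 < ε) :
    ∃ p, ∀ q ≥ p, ‖x - P (· < q) x‖ ≤ ε := by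
  obtain ⟨p, hp⟩ := x.mem ε hε
  refine ⟨p, fun q hq => norm_le _ fun f hf => le_trans (pr_mono (F.nonneg f hf) fun n => ?_)
    (hp f hf)⟩
  simp only [ev_sub, Pi.abs_apply, Pi.sub_apply, ev_P, tl]
  split_ifs with h1 h2 h3
  · simp
  · simp
  · omega
  · simp

/-- unit vectors -/
noncomputable def e (n : ℕ) : KS F :=
  mk (Pi.single n 1) (F.mem_of_supp (q := n + 1) fun m hm => Pi.single_eq_of_ne (by omega) _)

@[simp] theorem ev_e (n m : ℕ) : (e n : KS F).ev m = if m = n then 1 else 0 := by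
  simp [e, Pi.single_apply]

theorem eq_sum_e (x : KS F) (s : Finset ℕ) (h : ∀ n, n ∉ s → x.ev n = 0) :
    x = ∑ n ∈ s, x.ev n • e n := by
  ext m
  simp only [ev_sum, Finset.sum_apply, ev_smul, Pi.smul_apply, ev_e, smul_eq_mul, mul_ite,
    mul_one, mul_zero, sum_ite_eq]
  split_ifs with hm
  · rfl
  · exact h m hm

/-- the first coordinates -/
def co (p : ℕ) : KS F →ₗ[ℝ] (Fin p → ℝ) where
  toFun x i := x.ev i
  map_add' _ _ := rfl
  map_smul' _ _ := rfl

theorem co_eq_zero {p : ℕ} {x : KS F} : co p x = 0 ↔ ∀ n < p, x.ev n = 0 :=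
  ⟨fun h n hn => congrFun h ⟨n, hn⟩, fun h => funext fun i => h i i.2⟩

theorem small_D {θ : ℕ → ℝ} (h : ∃ C, ∀ n, |θ n| ≤ C)
    (h0 : ∀ ε > 0, ∃ p, ∀ n ≥ p, |θ n| ≤ ε) : Small (D θ h : KS F →L[ℝ] KS F) ⊤ := by
  refine small_of fun N _ hi ε hε => ?_
  obtain ⟨p, hp⟩ := h0 ε hε
  obtain ⟨x, hx, hx0⟩ := (hi.inf_ker (co p)).exists_ne
  refine ⟨x, hx.1, hx0, norm_le_mul hε.le fun n => ?_⟩
  rw [ev_D, abs_mul]
  by_cases hn : n < p
  · rw [co_eq_zero.1 hx.2 n hn]; simp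
  · exact mul_le_mul_of_nonneg_right (hp n (by omega)) (abs_nonneg _)

/-- the band over a set of coordinates -/
def band (A : Set ℕ) : Submodule ℝ (KS F) where
  carrier := {x | ∀ n, n ∉ A → x.ev n = 0}
  zero_mem' := fun _ _ => rfl
  add_mem' := fun {x y} hx hy n hn => by simp [hx n hn, hy n hn]
  smul_mem' := fun c x hx n hn => by simp [hx n hn]

theorem inf_band (g : ℕ → ℕ) (hg : Function.Injective g) :
    Inf (band (Set.range g) : Submodule ℝ (KS F)) := by
  refine Inf.mono (inf_span_of_li (x := fun k => (e (g k) : KS F)) ?_) ?_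
  · rw [linearIndependent_iff']
    intro s c hs i hi
    have := congrArg (fun x : KS F => x.ev (g i)) hs
    simp only [ev_sum, Finset.sum_apply, ev_smul, Pi.smul_apply, ev_e, smul_eq_mul, mul_ite,
      mul_one, mul_zero, hg.eq_iff, sum_ite_eq, if_pos hi, ev_zero, Pi.zero_apply] at this
    exact this
  · rw [Submodule.span_le]
    rintro _ ⟨k, rfl⟩ n hn
    rw [ev_e, if_neg]
    rintro rfl
    exact hn ⟨k, rfl⟩

theorem order_cont (s : Set (KS F)) (hne : s.Nonempty) (hd : DirectedOn (· ≥ ·) s)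
    (hg : IsGLB s 0) {ε : ℝ} (hε : 0 < ε) : ∃ x ∈ s, ‖x‖ < ε := by
  have h1 : ∀ n, ∀ δ > 0, ∃ x ∈ s, x.ev n < δ := by
    intro n δ hδ
    by_contra hc
    push Not at hc
    have : δ • (e n : KS F) ≤ 0 := hg.2 fun x hx => le_def.2 fun m => by
      simp only [ev_smul, Pi.smul_apply, ev_e, smul_eq_mul]
      split_ifs with h
      · subst h; simpa using hc x hx
      · simpa using le_def.1 (hg.1 hx) m
    have := le_def.1 this n
    simp at this
    linarith
  obtain ⟨x0, hx0⟩ := hne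
  have h2 : ∀ δ > 0, ∀ p : ℕ, ∃ x ∈ s, x ≤ x0 ∧ ∀ n < p, x.ev n < δ := by
    intro δ hδ p
    induction p with
    | zero => exact ⟨x0, hx0, le_rfl, by simp⟩
    | succ p ih =>
      obtain ⟨x, hx, hle, hp⟩ := ih
      obtain ⟨y, hy, hyp⟩ := h1 p δ hδ
      obtain ⟨z, hz, hzx, hzy⟩ := hd x hx y hy
      refine ⟨z, hz, le_trans hzx hle, fun n hn => ?_⟩
      rcases Nat.lt_succ_iff_lt_or_eq.1 hn with h | rfl
      · exact (le_def.1 hzx n).trans_lt (hp n h)
      · exact (le_def.1 hzy n).trans_lt hyp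
  obtain ⟨p, hp⟩ := x0.exists_tail (ε := ε / 3) (by positivity)
  set u : KS F := mk (fun n => if n < p then 1 else 0)
    (F.mem_of_supp (q := p) fun n hn => if_neg (by omega)) with hu
  obtain ⟨x, hx, hle, hxp⟩ := h2 (ε / 3 / (‖u‖ + 1)) (by positivity) p
  refine ⟨x, hx, ?_⟩
  have hx0' : ∀ n, 0 ≤ x.ev n := fun n => by simpa using le_def.1 (hg.1 hx) n
  have h3 : ‖x‖ ≤ ‖(ε / 3 / (‖u‖ + 1)) • u + (x0 - P (· < p) x0)‖ := by
    refine norm_le_of fun n => ?_
    rw [abs_of_nonneg (hx0' n)]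
    refine le_trans ?_ (le_abs_self _)
    simp only [ev_add, ev_smul, ev_sub, Pi.add_apply, Pi.smul_apply, Pi.sub_apply, ev_P, hu, ev_mk,
      smul_eq_mul]
    split_ifs with h
    · have := hxp n h
      rw [hu] at this
      linarith
    · simpa using le_def.1 hle n
  have h4 : ‖(ε / 3 / (‖u‖ + 1)) • u‖ ≤ ε / 3 := by
    rw [norm_smul, Real.norm_eq_abs, abs_of_pos (by positivity), div_mul_eq_mul_div,
      div_le_iff₀ (by positivity)]
    nlinarith
  linarith [norm_add_le ((ε / 3 / (‖u‖ + 1)) • u) (x0 - P (· < p) x0), hp p le_rfl]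

end KS

end Pool.Agent.Lib.MP_4f5308_an
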