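import Pool.Agent.Lib.MP_4f5308_an.Diag

namespace Pool.Agent.Lib.MP_4f5308_an

open Finset KS Filter Topology

/-- block endpoints -/
def aa : ℕ → ℕ
  | 0 => 0
  | j + 1 => aa j + nn (2 * j)

theorem aa_lt (j : ℕ) : aa j < aa (j + 1) := by
  have := mm_le_nn (2 * j)
  have := two_le_mm (2 * j)
  rw [aa]; omega

theorem aa_mono : StrictMono aa := strictMono_nat_of_lt_succ aa_lt

theorem exists_lt_aa (n : ℕ) : ∃ j, n < aa (j + 1) := ⟨n, aa_mono.le_apply⟩

/-- block index -/
def bb (n : ℕ) : ℕ := Nat.find (exists_lt_aa n)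

theorem bb_spec (n : ℕ) : aa (bb n) ≤ n ∧ n < aa (bb n + 1) := by
  refine ⟨?_, Nat.find_spec (exists_lt_aa n)⟩
  rcases h : bb n with _ | j
  · exact Nat.zero_le _
  · exact not_lt.1 (Nat.find_min (exists_lt_aa n) (show j < bb n by omega))

theorem bb_eq {n j : ℕ} (h : aa j ≤ n ∧ n < aa (j + 1)) : bb n = j :=
  blk_unique aa_mono.monotone (bb_spec n) h

theorem le_bb {n j : ℕ} (h : aa j ≤ n) : j ≤ bb n := by
  have := aa_mono.lt_iff_lt.1 (h.trans_lt (bb_spec n).2)
  omega

theorem pr_mapDomain (f : ℕ →₀ ℝ) (v : ℕ → ℝ) : pr (f.mapDomain bb) v = pr f (v ∘ bb) := by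
  induction f using Finsupp.induction_linear with
  | zero => simp
  | add f g hf hg => rw [Finsupp.mapDomain_add, map_add, map_add, LinearMap.add_apply,
      LinearMap.add_apply, hf, hg]
  | single n c => rw [Finsupp.mapDomain_single, pr_single, pr_single]; rfl

theorem md_apply (f : ℕ →₀ ℝ) (j : ℕ) :
    f.mapDomain bb j = pr f fun n => if bb n = j then 1 else 0 := by
  have := pr_mapDomain f fun i => if i = j then 1 else 0
  rw [pr_eq_of _ _ {j} (fun n hn => by simp [mem_singleton.not.1 hn])] at this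
  simp only [sum_singleton, if_true, mul_one] at this
  exact this

/-- the norming family of the block space -/
def famW : Fam where
  W := {g | ∃ f ∈ famX.W, g = f.mapDomain bb}
  nonneg := by
    rintro _ ⟨f, hf, rfl⟩ j
    rw [md_apply]
    exact pr_nonneg (famX.nonneg f hf) fun n => by split_ifs <;> simp
  single_mem j := ⟨_, famX.single_mem (aa j), by
    rw [Finsupp.mapDomain_single, bb_eq ⟨le_rfl, aa_lt j⟩]⟩
  bdd j := ⟨aa (j + 1), by
    rintro _ ⟨f, ⟨v, hf⟩, rfl⟩
    rw [md_apply, pr_eq_of _ _ (range (aa (j + 1))) (fun n hn => by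
      rw [if_neg, mul_zero]
      rintro rfl
      exact hn (mem_range.2 (bb_spec n).2))]
    refine (sum_le_card_nsmul _ _ 1 fun n _ => ?_).trans (by simp)
    split_ifs
    · simpa using hf.le_one n
    · simp⟩

/-- the block space -/
abbrev WW : Type := KS famW

theorem comp_mem (v : WW) : v.ev ∘ bb ∈ famX.sub := by
  intro ε hε
  obtain ⟨p, hp⟩ := v.mem ε hε
  refine ⟨aa p, fun f hf => le_trans ?_ (hp _ ⟨f, hf, rfl⟩)⟩
  rw [pr_mapDomain]
  refine pr_mono (famX.nonneg f hf) fun n => ?_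
  by_cases h : n < aa p
  · simp only [tl, if_pos h]
    exact tl_nonneg p v.ev (bb n)
  · have := le_bb (not_lt.1 h)
    simp only [tl, Function.comp, if_neg h, if_neg (not_lt.2 this), le_refl]

theorem norm_comp (v : WW) : ‖(mk _ (comp_mem v) : XX)‖ = ‖v‖ := by
  apply le_antisymm
  · refine norm_le _ fun f hf => le_trans (le_of_eq ?_) (v.pr_le_norm ⟨f, hf, rfl⟩)
    rw [pr_mapDomain]; rfl
  · refine norm_le _ ?_
    rintro _ ⟨f, hf, rfl⟩
    rw [pr_mapDomain]
    exact (mk _ (comp_mem v) : XX).pr_le_norm hf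

/-- the embedding of the block space -/
noncomputable def JJ : WW →L[ℝ] XX :=
  LinearMap.mkContinuous
    { toFun := fun v => mk _ (comp_mem v)
      map_add' := fun _ _ => rfl
      map_smul' := fun _ _ => rfl } 1 fun v => by rw [one_mul]; exact (norm_comp v).le

theorem ev_JJ (v : WW) (n : ℕ) : (JJ v).ev n = v.ev (bb n) := rfl

theorem norm_JJ (v : WW) : ‖JJ v‖ = ‖v‖ := norm_comp v

theorem le_norm_eW (j : ℕ) : (j : ℝ) ≤ ‖(e j : WW)‖ := by
  have h1 := lower (j := 2 * j) (even_two_mul j) le_rfl (a := fun l => aa j + l)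
    (u := fun l => e (aa j + l)) ⟨fun l l' h => by simpa using h, fun l x hx => by
      simp only [ev_e] at hx
      split_ifs at hx with h
      · subst h; simp
      · exact absurd rfl hx⟩ (r := 1 / 2) (fun l => by
      have := (e (aa j + l) : XX).abs_le_norm (aa j + l)
      simp only [ev_e, if_true, abs_one] at this
      linarith)
  have h2 : ‖∑ l ∈ range (nn (2 * j)), (e (aa j + l) : XX)‖ ≤ ‖JJ (e j)‖ := by
    refine norm_le_of fun n => ?_
    simp only [ev_sum, Finset.sum_apply, ev_e, ev_JJ]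
    by_cases h : aa j ≤ n ∧ n < aa (j + 1)
    · rw [if_pos (bb_eq h), abs_one, abs_of_nonneg (sum_nonneg fun l _ => by split_ifs <;> simp)]
      refine sum_le_of_unique _ zero_le_one (fun l => by split_ifs <;> simp) fun l l' h1 h2 => ?_
      have e1 : n = aa j + l := by_contra fun h => h1 (if_neg h)
      have e2 : n = aa j + l' := by_contra fun h => h2 (if_neg h)
      omega
    · rw [sum_eq_zero fun l hl => if_neg (by
        have := mem_range.1 hl
        rw [aa] at h
        omega)]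
      simp
  rw [norm_JJ] at h2
  refine le_trans ?_ (h1.trans h2)
  have hm := two_le_mm' (2 * j)
  have h3 : (mm (2 * j) : ℝ) ^ 3 ≤ nn (2 * j) := by exact_mod_cast cube_le_nn _
  have h4 : (j : ℝ) ≤ mm (2 * j) := by exact_mod_cast (by have := lt_mm (2 * j); omega)
  rw [le_div_iff₀ (mm_pos _)]
  nlinarith [mul_le_mul_of_nonneg_right h4 (mm_pos (2 * j)).le,
    mul_le_mul_of_nonneg_right hm (mul_pos (mm_pos (2 * j)) (mm_pos (2 * j))).le]

theorem coord_W (v : WW) (j : ℕ) : |v.ev j| * j ≤ ‖v‖ := by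
  have h1 : ‖v.ev j • (e j : WW)‖ ≤ ‖v‖ := norm_le_of fun n => by
    simp only [ev_smul, Pi.smul_apply, ev_e, smul_eq_mul]
    split_ifs with h
    · subst h; simp
    · simp
  rw [norm_smul, Real.norm_eq_abs] at h1
  exact (mul_le_mul_of_nonneg_left (le_norm_eW j) (abs_nonneg _)).trans h1

theorem diag_bdd (A : XX →L[ℝ] XX) : ∃ C, ∀ n, |(A (e n)).ev n| ≤ C :=
  ⟨‖A‖, fun n => ((A (e n)).abs_le_norm n).trans ((A.le_opNorm _).trans
    (mul_le_of_le_one_right (norm_nonneg _) (norm_e_le n)))⟩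

/-- every operator is diagonal plus strictly singular -/
theorem small_sub_diag (A : XX →L[ℝ] XX) : Small (A - D _ (diag_bdd A)) ⊤ :=
  small_of_zero_diag fun n => by simp

theorem small_to_W (C : XX →L[ℝ] WW) : Small C ⊤ := by
  refine Small.of_bb_left (R := JJ) ?_ ⟨1, one_pos, fun v _ => by rw [norm_JJ, one_mul]⟩
  have h1 := small_sub_diag (JJ.comp C)
  have h2 := small_D (F := famX) (diag_bdd (JJ.comp C)) (fun ε hε => by
    obtain ⟨j, hj⟩ := exists_nat_gt (‖C‖ / ε)
    refine ⟨aa j, fun n hn => ?_⟩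
    have e1 := coord_W (C (e n)) (bb n)
    have e2 : ‖C (e n)‖ ≤ ‖C‖ := (C.le_opNorm _).trans
      (mul_le_of_le_one_right (norm_nonneg _) (norm_e_le n))
    have e3 : (j : ℝ) ≤ bb n := by exact_mod_cast le_bb hn
    rw [div_lt_iff₀ hε] at hj
    change |(C (e n)).ev (bb n)| ≤ ε
    by_contra h
    push Not at h
    have := mul_le_mul h.le e3 (Nat.cast_nonneg _) (abs_nonneg _)
    linarith)
  simpa using h1.add h2

section Sum

variable {F G : Fam}

instance : HasSolidNorm (KS F × KS G) :=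
  ⟨fun _ _ h => max_le_max (HasSolidNorm.solid h.1) (HasSolidNorm.solid h.2)⟩

theorem order_continuous : OrderContinuous (KS F × KS G) := by
  intro ι _ _ _ x hx hg
  have hg' := isGLB_prod.1 hg
  have hd : DirectedOn (· ≥ ·) (Set.range x) := by
    rintro _ ⟨i, rfl⟩ _ ⟨j, rfl⟩
    obtain ⟨k, h1, h2⟩ := exists_ge_ge i j
    exact ⟨x k, ⟨k, rfl⟩, hx h1, hx h2⟩
  rw [Metric.tendsto_nhds]
  intro ε hε
  obtain ⟨_, ⟨_, ⟨i, rfl⟩, rfl⟩, hi⟩ := order_cont _ ((Set.range_nonempty x).image Prod.fst)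
    (hd.mono_comp fun _ _ h => h.1) hg'.1 hε
  obtain ⟨_, ⟨_, ⟨j, rfl⟩, rfl⟩, hj⟩ := order_cont _ ((Set.range_nonempty x).image Prod.snd)
    (hd.mono_comp fun _ _ h => h.2) hg'.2 hε
  obtain ⟨k, h1, h2⟩ := exists_ge_ge i j
  filter_upwards [eventually_ge_atTop k] with l hl
  have h0 : ∀ l, 0 ≤ x l := fun l => hg.1 ⟨l, rfl⟩
  rw [dist_zero_right, Prod.norm_def, max_lt_iff]
  constructor
  · refine lt_of_le_of_lt (HasSolidNorm.solid ?_) hi
    rw [abs_of_nonneg (h0 l).1, abs_of_nonneg (h0 i).1]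
    exact (hx (h1.trans hl)).1
  · refine lt_of_le_of_lt (HasSolidNorm.solid ?_) hj
    rw [abs_of_nonneg (h0 l).2, abs_of_nonneg (h0 j).2]
    exact (hx (h2.trans hl)).2

theorem disj_iff {x y : KS F} : |x| ⊓ |y| = 0 ↔ ∀ n, x.ev n = 0 ∨ y.ev n = 0 := by
  rw [KS.ext_iff]
  refine forall_congr' fun n => ?_
  simp only [ev_inf, ev_abs, Pi.inf_apply, Pi.abs_apply, ev_zero, Pi.zero_apply]
  constructor
  · intro h
    rcases min_choice |x.ev n| |y.ev n| with h1 | h1
    · exact Or.inl (abs_eq_zero.1 (h1.symm.trans h))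
    · exact Or.inr (abs_eq_zero.1 (h1.symm.trans h))
  · rintro (h | h) <;> simp [h]

theorem disj_prod {x y : KS F × KS G} : |x| ⊓ |y| = 0 ↔
    (∀ n, x.1.ev n = 0 ∨ y.1.ev n = 0) ∧ ∀ n, x.2.ev n = 0 ∨ y.2.ev n = 0 := by
  rw [Prod.ext_iff, ← disj_iff, ← disj_iff]; rfl

theorem DisjointSeq.inf {x : ℕ → KS F × KS G} (h : DisjointSeq x) : Inf (cspan x) := by
  refine Inf.mono (inf_span_of_li ?_) (Submodule.le_topologicalClosure _)
  rw [linearIndependent_iff']
  intro s c hs i hi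
  have h0 := h.1 i
  rw [Ne, Prod.ext_iff, not_and_or, KS.ext_iff, KS.ext_iff] at h0
  push Not at h0
  rcases h0 with ⟨n, hn⟩ | ⟨n, hn⟩
  · have := congrArg (fun z : KS F × KS G => z.1.ev n) hs
    simp only [Prod.fst_sum, ev_sum, Finset.sum_apply, Prod.smul_fst, ev_smul, Pi.smul_apply,
      smul_eq_mul, Prod.fst_zero, ev_zero, Pi.zero_apply] at this hn
    rw [sum_eq_single i (fun k _ hk => by
      rw [((disj_prod.1 (h.2 k i hk)).1 n).resolve_right hn, mul_zero])
      (fun h1 => absurd hi h1)] at this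
    exact (mul_eq_zero.1 this).resolve_right hn
  · have := congrArg (fun z : KS F × KS G => z.2.ev n) hs
    simp only [Prod.snd_sum, ev_sum, Finset.sum_apply, Prod.smul_snd, ev_smul, Pi.smul_apply,
      smul_eq_mul, Prod.snd_zero, ev_zero, Pi.zero_apply] at this hn
    rw [sum_eq_single i (fun k _ hk => by
      rw [((disj_prod.1 (h.2 k i hk)).2 n).resolve_right hn, mul_zero])
      (fun h1 => absurd hi h1)] at this
    exact (mul_eq_zero.1 this).resolve_right hn

/-- initial projections of the sum -/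
noncomputable def PP (p : ℕ) : KS F × KS G →L[ℝ] KS F × KS G :=
  (P (· < p)).prodMap (P (· < p))

theorem norm_PP_le (p : ℕ) (x : KS F × KS G) : ‖PP p x‖ ≤ ‖x‖ :=
  max_le_max (norm_P_le _ _) (norm_P_le _ _)

theorem norm_sub_PP_le (p : ℕ) (x : KS F × KS G) : ‖x - PP p x‖ ≤ ‖x‖ :=
  max_le_max (norm_sub_P_le _ _) (norm_sub_P_le _ _)

theorem PP_eq_zero {p : ℕ} {x : KS F × KS G} (h1 : ∀ n < p, x.1.ev n = 0)
    (h2 : ∀ n < p, x.2.ev n = 0) : PP p x = 0 := by
  refine Prod.ext (KS.ext fun n => ?_) (KS.ext fun n => ?_)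
  · change (P (· < p) x.1).ev n = 0
    rw [ev_P]; split_ifs with h
    · exact h1 n h
    · rfl
  · change (P (· < p) x.2).ev n = 0
    rw [ev_P]; split_ifs with h
    · exact h2 n h
    · rfl

theorem PP_eq_self {p : ℕ} {x : KS F × KS G} (h1 : ∀ n, x.1.ev n ≠ 0 → n < p)
    (h2 : ∀ n, x.2.ev n ≠ 0 → n < p) : PP p x = x := by
  refine Prod.ext (KS.ext fun n => ?_) (KS.ext fun n => ?_)
  · change (P (· < p) x.1).ev n = _
    rw [ev_P]; split_ifs with h
    · rfl
    · exact (by_contra fun h0 => h (h1 n h0) : x.1.ev n = 0).symm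
  · change (P (· < p) x.2).ev n = _
    rw [ev_P]; split_ifs with h
    · rfl
    · exact (by_contra fun h0 => h (h2 n h0) : x.2.ev n = 0).symm

theorem inf_co {M : Submodule ℝ (KS F × KS G)} (hM : Inf M) (p : ℕ) :
    ∃ N ≤ M, Inf N ∧ ∀ x ∈ N, (∀ n < p, x.1.ev n = 0) ∧ ∀ n < p, x.2.ev n = 0 :=
  ⟨_, inf_le_left, hM.inf_ker ((co p).prodMap (co p)), fun _ hx =>
    ⟨co_eq_zero.1 (congrArg Prod.fst hx.2), co_eq_zero.1 (congrArg Prod.snd hx.2)⟩⟩

variable {Y : Type} [NormedAddCommGroup Y] [NormedSpace ℝ Y]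

theorem not_dns_of_small {T : KS F × KS G →L[ℝ] Y} {M : Submodule ℝ (KS F × KS G)} (hM : Inf M)
    (hT : Small T M) : ¬ DNS T := by
  have step : ∀ n p : ℕ, ∃ (q : ℕ) (y : KS F × KS G), p ≤ q ∧ y ≠ 0 ∧
      (∀ i, y.1.ev i ≠ 0 → p ≤ i ∧ i < q) ∧ (∀ i, y.2.ev i ≠ 0 → p ≤ i ∧ i < q) ∧
      ‖T y‖ ≤ 1 * (1 / 4) ^ n * ‖y‖ := by
    intro n p
    obtain ⟨N, hN, hNi, hNp⟩ := inf_co hM p
    set ε : ℝ := (1 / 4) ^ n / 2 / (1 + ‖T‖) with hε
    have hε0 : 0 < ε := by positivity
    have hε1 : ε * (1 + ‖T‖) = (1 / 4) ^ n / 2 := div_mul_cancel₀ _ (by positivity)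
    have hε2 : (1 / 4 : ℝ) ^ n ≤ 1 := pow_le_one₀ (by norm_num) (by norm_num)
    have hε3 : ε ≤ 1 / 2 := by nlinarith [norm_nonneg T]
    obtain ⟨z, hz, hz1, hzT⟩ := hT.exists_unit hN hNi hε0
    obtain ⟨q1, hq1⟩ := z.1.exists_tail hε0
    obtain ⟨q2, hq2⟩ := z.2.exists_tail hε0
    set q := max p (max q1 q2) with hq
    have h1 : ‖z - PP q z‖ ≤ ε := max_le (hq1 q (by omega)) (hq2 q (by omega))
    have h2 : 1 / 2 ≤ ‖PP q z‖ := by
      have := norm_sub_norm_le z (PP q z)
      linarith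
    refine ⟨q, PP q z, le_max_left _ _, fun h => by rw [h, norm_zero] at h2; linarith,
      fun i hi => ?_, fun i hi => ?_, ?_⟩
    · change (P (· < q) z.1).ev i ≠ 0 at hi
      rw [ev_P] at hi
      split_ifs at hi with h
      · exact ⟨by_contra fun h3 => hi ((hNp z hz).1 i (not_le.1 h3)), h⟩
      · exact absurd rfl hi
    · change (P (· < q) z.2).ev i ≠ 0 at hi
      rw [ev_P] at hi
      split_ifs at hi with h
      · exact ⟨by_contra fun h3 => hi ((hNp z hz).2 i (not_le.1 h3)), h⟩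
      · exact absurd rfl hi
    · have h3 : T (PP q z) = T z - T (z - PP q z) := by rw [map_sub]; abel
      have h4 : ‖T (z - PP q z)‖ ≤ ‖T‖ * ε := (T.le_opNorm _).trans (by gcongr)
      have h5 := norm_sub_le (T z) (T (z - PP q z))
      have h6 : (0 : ℝ) < (1 / 4) ^ n := by positivity
      rw [h3]
      nlinarith
  choose q y h1 h2 h3 h4 h5 using step
  let a : ℕ → ℕ := fun n => Nat.rec 0 (fun n p => q n p) n
  have ha : Monotone a := monotone_nat_of_le_succ fun n => h1 n (a n)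
  set u : ℕ → KS F × KS G := fun n => y n (a n) with hu
  have hu1 : ∀ n i, (u n).1.ev i ≠ 0 → a n ≤ i ∧ i < a (n + 1) := fun n => h3 n (a n)
  have hu2 : ∀ n i, (u n).2.ev i ≠ 0 → a n ≤ i ∧ i < a (n + 1) := fun n => h4 n (a n)
  have hP0 : ∀ k n, k ≤ n → PP (a k) (u n) = 0 := fun k n h =>
    PP_eq_zero (fun i hi => by_contra fun h0 => by have := hu1 n i h0; have := ha h; omega)
      (fun i hi => by_contra fun h0 => by have := hu2 n i h0; have := ha h; omega)
  have hP1 : ∀ k n, n < k → PP (a k) (u n) = u n := fun k n h =>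
    PP_eq_self (fun i h0 => (hu1 n i h0).2.trans_le (ha h))
      (fun i h0 => (hu2 n i h0).2.trans_le (ha h))
  choose ψ hψ1 hψ2 using fun n => exists_dual_vector ℝ (u n) (norm_ne_zero_iff.2 (h2 n (a n)))
  have key : ∀ k, ∀ x ∈ cspan u, ‖T (x - PP (a k) x)‖ ≤ 2 * (1 / 4) ^ k * ‖x‖ := by
    intro k x hx
    have hc : IsClosed {x : KS F × KS G | ‖T (x - PP (a k) x)‖ ≤ 2 * (1 / 4) ^ k * ‖x‖} :=
      isClosed_le (by fun_prop) (by fun_prop)
    refine closure_minimal (fun x hx => ?_) hc hx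
    obtain ⟨L, c, rfl⟩ := exists_range_of_mem_span hx
    have e1 : ∑ i ∈ range L, c i • u i - PP (a k) (∑ i ∈ range L, c i • u i) =
        ∑ i ∈ range L, (if i < k then 0 else c i) • u i := by
      rw [map_sum, ← sum_sub_distrib]
      refine sum_congr rfl fun i _ => ?_
      rw [map_smul]
      split_ifs with h
      · rw [hP1 k i h]; simp
      · rw [hP0 k i (not_lt.1 h)]; simp
    have e2 := chain_bound T u (fun n => (ψ n).comp (PP (a (n + 1)))) zero_le_one
      (fun n x => by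
        have := (ψ n).le_opNorm (PP (a (n + 1)) x)
        rw [hψ1, one_mul] at this
        exact this.trans (norm_PP_le _ _))
      (fun n => by
        change ψ n (PP (a (n + 1)) (u n)) = _
        rw [hP1 _ _ (Nat.lt_succ_self n)]
        simpa using hψ2 n)
      (fun n m h => by
        change ψ n (PP (a (n + 1)) (u m)) = _
        rw [hP0 _ _ h, map_zero])
      (fun n => h5 n (a n)) L k (fun i => if i < k then 0 else c i) (fun i hi => if_pos hi)
    rw [← e1, mul_one] at e2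
    exact e2.trans (mul_le_mul_of_nonneg_left (norm_sub_PP_le _ _) (by positivity))
  refine fun h => h ⟨u, ⟨fun n => h2 n (a n), fun n m hnm => disj_prod.2 ⟨fun i => ?_, fun i => ?_⟩⟩,
    (ss_iff_small _ _).2 (small_of fun N hN hi ε hε => ?_)⟩
  · by_contra hc
    push Not at hc
    exact hnm (blk_unique ha (hu1 n i hc.1) (hu1 m i hc.2))
  · by_contra hc
    push Not at hc
    exact hnm (blk_unique ha (hu2 n i hc.1) (hu2 m i hc.2))
  · obtain ⟨k, hk⟩ := exists_pow_lt_of_lt_one (half_pos hε) (by norm_num : (1 / 4 : ℝ) < 1)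
    obtain ⟨N', h6, h7, h8⟩ := inf_co hi (a k)
    obtain ⟨x, hx, hx0⟩ := h7.exists_ne
    refine ⟨x, h6 hx, hx0, ?_⟩
    have := key k x (hN (h6 hx))
    rw [PP_eq_zero (h8 x hx).1 (h8 x hx).2, sub_zero] at this
    exact this.trans (mul_le_mul_of_nonneg_right (by linarith) (norm_nonneg _))

theorem DNS.not_small {Z : Type} [NormedAddCommGroup Z] [NormedSpace ℝ Z]
    {T : KS F × KS G →L[ℝ] Y} (hT : DNS T) {R : Z →L[ℝ] KS F × KS G} {M : Submodule ℝ Z}
    (hM : Inf M) (hR : Bb R M) : ¬ Small (T.comp R) M :=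
  fun h => not_dns_of_small (hM.map R hR) (h.map hR) hT

theorem dns_id : DNS (ContinuousLinearMap.id ℝ (KS F × KS G)) := by
  rintro ⟨x, hx, h⟩
  exact (ss_iff_small _ _).1 h _ le_rfl hx.inf ⟨1, one_pos, fun x _ => by simp⟩

end Sum

open ContinuousLinearMap in
/-- the perturbation -/
noncomputable def KK : XX × WW →L[ℝ] XX × WW := (inl ℝ XX WW).comp (JJ.comp (snd ℝ XX WW))

theorem KK_apply (x : XX × WW) : KK x = (JJ x.2, 0) := rfl

theorem not_dss : ¬ DSS KK := by
  refine fun h => h ⟨fun n => (0, e n), ⟨fun n h0 => ?_, fun n m hnm => ?_⟩, ?_⟩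
  · have := congrArg (fun z : XX × WW => z.2.ev n) h0
    simp at this
  · refine disj_prod.2 ⟨fun i => Or.inl rfl, fun i => ?_⟩
    simp only [ev_e]
    by_cases h : i = n
    · right; rw [if_neg (by omega)]
    · left; rw [if_neg h]
  · rw [isEmbedding_iff_bb]
    refine Bb.closure ⟨1, one_pos, fun x hx => ?_⟩
    have : x.1 = 0 := by
      have h1 : Submodule.span ℝ (Set.range fun n => ((0, e n) : XX × WW)) ≤
          LinearMap.ker (LinearMap.fst ℝ XX WW) := by
        rw [Submodule.span_le]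
        rintro _ ⟨n, rfl⟩
        rfl
      exact h1 hx
    rw [KK_apply, Prod.norm_def, Prod.norm_def, this]
    simp [norm_JJ]

open ContinuousLinearMap in
theorem dns_add {T : XX × WW →L[ℝ] XX × WW} (hT : DNS T) : DNS (T + KK) := by
  classical
  set A : XX →L[ℝ] XX := (fst ℝ XX WW).comp (T.comp (inl ℝ XX WW)) with hA
  set C : XX →L[ℝ] WW := (snd ℝ XX WW).comp (T.comp (inl ℝ XX WW)) with hC
  have hTi : ∀ u, T (u, 0) = (A u, C u) := fun u => rfl
  set a : ℕ → ℝ := fun n => (A (e n)).ev n with ha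
  have hS : Small (A - D a (diag_bdd A)) ⊤ := small_sub_diag A
  have hCs := small_to_W C
  obtain ⟨δ, hδ, p, hp⟩ : ∃ δ > 0, ∃ p, ∀ n ≥ p, δ ≤ |a n| := by
    by_contra hc
    push Not at hc
    have h1 : ∀ k p : ℕ, ∃ n, p < n ∧ |a n| < 1 / ((k : ℝ) + 1) := fun k p =>
      hc _ (by positivity) (p + 1)
    choose nx h2 h3 using h1
    let g : ℕ → ℕ := fun k => Nat.rec (nx 0 0) (fun k x => nx (k + 1) x) k
    have hg : StrictMono g := strictMono_nat_of_lt_succ fun k => h2 _ _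
    have hga : ∀ k, |a (g k)| < 1 / ((k : ℝ) + 1) := fun k => by cases k <;> exact h3 _ _
    have hθ : ∃ c, ∀ n, |if n ∈ Set.range g then a n else 0| ≤ c := by
      obtain ⟨c, hc⟩ := diag_bdd A
      refine ⟨c, fun n => ?_⟩
      split_ifs
      · exact hc n
      · rw [abs_zero]; exact (abs_nonneg _).trans (hc n)
    have h4 := small_D (F := famX) hθ (fun ε hε => by
      obtain ⟨k, hk⟩ := exists_nat_one_div_lt hε
      refine ⟨g k, fun n hn => ?_⟩
      split_ifs with h
      · obtain ⟨l, rfl⟩ := h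
        have : (k : ℝ) ≤ l := by exact_mod_cast hg.le_iff_le.1 hn
        refine (hga l).le.trans (le_trans ?_ hk.le)
        gcongr
      · simpa using hε.le)
    refine hT.not_small (R := inl ℝ XX WW) (inf_band g hg.injective)
      ⟨1, one_pos, fun x _ => by simp⟩ ?_
    refine ((((hS.add h4).comp_left (inl ℝ XX WW)).add (hCs.comp_left (inr ℝ XX WW))).mono
      le_top).congr fun x hx => ?_
    change _ = T (x, 0)
    rw [hTi]
    refine Prod.ext (KS.ext fun n => ?_) (by simp)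
    simp only [add_apply, comp_apply, sub_apply, inl_apply, inr_apply, Prod.mk_add_mk, add_zero,
      ev_add, ev_sub, Pi.add_apply, Pi.sub_apply, ev_D]
    split_ifs with h
    · ring
    · rw [hx n h]; ring
  have hΔ : ∃ c, ∀ n, |if n < p then 0 else (a n)⁻¹| ≤ c := by
    refine ⟨δ⁻¹, fun n => ?_⟩
    split_ifs with h
    · rw [abs_zero]; positivity
    · rw [abs_inv]; exact inv_anti₀ hδ (hp n (not_lt.1 h))
  set Δ : XX →L[ℝ] XX := D _ hΔ with hΔ'
  have hP : Small (P (· < p) : XX →L[ℝ] XX) ⊤ :=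
    small_D _ fun ε hε => ⟨p, fun n hn => by rw [if_neg (not_lt.2 hn), abs_zero]; exact hε.le⟩
  have hAΔ : ∀ x, A (Δ x) = x + ((A - D a (diag_bdd A)).comp Δ - P (· < p)) x := by
    intro x
    ext n
    simp only [comp_apply, sub_apply, ev_add, ev_sub, Pi.add_apply, Pi.sub_apply, ev_D, hΔ', ev_P]
    split_ifs with h
    · ring
    · have : a n ≠ 0 := fun h0 => by
        have := hp n (not_lt.1 h)
        rw [h0, abs_zero] at this
        linarith
      field_simp
      ring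
  have hS2 : Small ((A - D a (diag_bdd A)).comp Δ - P (· < p)) ⊤ := (hS.comp_right Δ ⊤).sub hP
  set R : XX × WW →L[ℝ] XX := JJ.comp (snd ℝ XX WW) with hR
  set N : XX × WW →L[ℝ] XX × WW := (inl ℝ XX WW).comp (Δ.comp R) with hN
  rintro ⟨x, hx, h⟩
  rw [ss_iff_small] at h
  refine hT.not_small (R := ContinuousLinearMap.id ℝ _ + N) hx.inf ?_ ?_
  · refine Bb.of_comp (R := ContinuousLinearMap.id ℝ _ - N) ⟨1, one_pos, fun z _ => ?_⟩
    have : ((ContinuousLinearMap.id ℝ _ - N).comp (ContinuousLinearMap.id ℝ _ + N)) z = z := by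
      simp [hN, hR]
    rw [this, one_mul]
  · refine ((h.add ((hS2.comp_right R _).comp_left (inl ℝ XX WW))).add
      (((hCs.comp_right Δ ⊤).comp_right R _).comp_left (inr ℝ XX WW))).congr fun z _ => ?_
    have e1 : (T.comp (ContinuousLinearMap.id ℝ _ + N)) z = T z + T (Δ (R z), 0) := by
      simp [hN]
    rw [e1, hTi, hAΔ]
    refine Prod.ext ?_ ?_
    · simp [KK_apply, hR, add_assoc]
    · simp [KK_apply]

end Pool.Agent.Lib.MP_4f5308_an
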