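import Pool.Agent.Lib.MP_4f5308_an.KS

namespace Pool.Agent.Lib.MP_4f5308_an

open Finset

/-- the weights -/
def mm : ℕ → ℕ
  | 0 => 2
  | j + 1 => mm j ^ (mm j ^ 2 + 4)

/-- the lengths -/
def nn (j : ℕ) : ℕ := mm j ^ (mm j ^ 2 + 3)

theorem mm_succ (j : ℕ) : mm (j + 1) = nn j * mm j := by
  rw [nn, ← pow_succ]; rfl

theorem two_le_mm (j : ℕ) : 2 ≤ mm j := by
  induction j with
  | zero => exact le_rfl
  | succ j ih => exact ih.trans (Nat.le_self_pow (by omega) _)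

theorem cube_le_nn (j : ℕ) : mm j ^ 3 ≤ nn j :=
  Nat.pow_le_pow_right (by have := two_le_mm j; omega) (by omega)

theorem mm_le_nn (j : ℕ) : mm j ≤ nn j := Nat.le_self_pow (by omega) _

theorem two_mul_mm (j : ℕ) : 2 * mm j ≤ mm (j + 1) := by
  rw [mm_succ]
  exact Nat.mul_le_mul_right _ ((two_le_mm j).trans (mm_le_nn j))

theorem mm_mono : Monotone mm := monotone_nat_of_le_succ fun j => by
  have := two_mul_mm j; omega

theorem pow_le_mm (j : ℕ) : 2 ^ j ≤ mm j := by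
  induction j with
  | zero => have := two_le_mm 0; omega
  | succ j ih => have := two_mul_mm j; rw [pow_succ]; omega

theorem lt_mm (j : ℕ) : j < mm j := (Nat.lt_two_pow_self).trans_le (pow_le_mm j)

theorem nn_le_mm {w J : ℕ} (h : w < J) : nn w ≤ mm J := by
  refine le_trans ?_ (mm_mono h)
  rw [mm_succ]
  exact Nat.le_mul_of_pos_right _ (by have := two_le_mm w; omega)

theorem sq_le_mm {w J : ℕ} (h : J < w) : mm J ^ 2 ≤ mm w := by
  refine le_trans ?_ (mm_mono h)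
  rw [mm_succ, sq]
  exact Nat.mul_le_mul_right _ (mm_le_nn J)

theorem mm_pos (j : ℕ) : (0 : ℝ) < mm j := by
  have := two_le_mm j
  exact_mod_cast (by omega : 0 < mm j)

theorem two_le_mm' (j : ℕ) : (2 : ℝ) ≤ mm j := by exact_mod_cast two_le_mm j

theorem nn_pos (j : ℕ) : (0 : ℝ) < nn j := by
  have := two_le_mm j
  have := mm_le_nn j
  exact_mod_cast (by omega : 0 < nn j)

/-- coding of finite sets by weights -/
def code (j : ℕ) : Finset ℕ := (Encodable.decode (Nat.unpair (j / 2)).1).getD ∅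

theorem exists_code (E : Finset ℕ) (t : ℕ) : ∃ j, t < j ∧ Even j ∧ code j = E := by
  refine ⟨2 * Nat.pair (Encodable.encode E) (t + 1), ?_, even_two_mul _, ?_⟩
  · have := Nat.right_le_pair (Encodable.encode E) (t + 1)
    omega
  · simp [code]

/-- successive blocks -/
def Blk (b : ℕ → ℕ) (Y : ℕ → ℕ → ℝ) : Prop :=
  Monotone b ∧ ∀ k x, Y k x ≠ 0 → b k ≤ x ∧ x < b (k + 1)

/-- the norming set, with weights -/
inductive Fn : Option ℕ → (ℕ →₀ ℝ) → Prop
  | leaf (n : ℕ) (c : ℝ) (h0 : 0 ≤ c) (h1 : c ≤ 1) : Fn none (Finsupp.single n c)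
  | node (j d : ℕ) (a : ℕ → ℕ) (g : ℕ → ℕ →₀ ℝ) (w : ℕ → Option ℕ) (hd : d ≤ nn j)
      (hs : Blk a fun l => g l) (hg : ∀ l, Fn (w l) (g l))
      (hsp : Odd j → ∀ l < d, ∃ v, w l = some v ∧ j < v ∧ ∀ s < l, ∀ x, g s x ≠ 0 → x ∈ code v) :
      Fn (some j) ((1 / (mm j : ℝ)) • ∑ l ∈ range d, g l)

theorem blk_unique {a : ℕ → ℕ} (ha : Monotone a) {l l' x : ℕ} (h : a l ≤ x ∧ x < a (l + 1))
    (h' : a l' ≤ x ∧ x < a (l' + 1)) : l = l' := by
  rcases lt_trichotomy l l' with hl | hl | hl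
  · have := ha (show l + 1 ≤ l' from hl); omega
  · exact hl
  · have := ha (show l' + 1 ≤ l from hl); omega

theorem sum_le_of_unique (B : Finset ℕ) {t : ℕ → ℝ} {C : ℝ} (hC : 0 ≤ C) (h : ∀ k, t k ≤ C)
    (hu : ∀ k k', t k ≠ 0 → t k' ≠ 0 → k = k') : ∑ k ∈ B, t k ≤ C := by
  by_cases he : ∃ k ∈ B, t k ≠ 0
  · obtain ⟨k, hk, h0⟩ := he
    rw [sum_eq_single k (fun k' _ hne => by_contra fun h1 => hne (hu k' k h1 h0))
      (fun h1 => absurd hk h1)]
    exact h k
  · push Not at he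
    rw [sum_eq_zero he]; exact hC

theorem Fn.nonneg {w : Option ℕ} {f : ℕ →₀ ℝ} (h : Fn w f) (x : ℕ) : 0 ≤ f x := by
  induction h with
  | leaf n c h0 h1 => rw [Finsupp.single_apply]; split_ifs <;> simp [h0]
  | node j d a g w hd hs hg hsp ih =>
    rw [Finsupp.smul_apply, Finsupp.finsetSum_apply, smul_eq_mul]
    exact mul_nonneg (by have := mm_pos j; positivity) (sum_nonneg fun l _ => ih l)

theorem Fn.le_one {w : Option ℕ} {f : ℕ →₀ ℝ} (h : Fn w f) (x : ℕ) : f x ≤ 1 := by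
  induction h with
  | leaf n c h0 h1 => rw [Finsupp.single_apply]; split_ifs <;> simp [h1]
  | node j d a g w hd hs hg hsp ih =>
    rw [Finsupp.smul_apply, Finsupp.finsetSum_apply, smul_eq_mul]
    have h1 := sum_le_of_unique (range d) (t := fun l => g l x) zero_le_one ih
      fun k k' hk hk' => blk_unique hs.1 (hs.2 k x hk) (hs.2 k' x hk')
    have h2 := two_le_mm' j
    rw [one_div, inv_mul_le_iff₀ (mm_pos j)]
    linarith

theorem Fn.le_inv {j : ℕ} {f : ℕ →₀ ℝ} (h : Fn (some j) f) (x : ℕ) : f x ≤ 1 / mm j := by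
  cases h with
  | node j d a g w hd hs hg hsp =>
    rw [Finsupp.smul_apply, Finsupp.finsetSum_apply, smul_eq_mul]
    have h1 := sum_le_of_unique (range d) (t := fun l => g l x) zero_le_one
      (fun l => (hg l).le_one x) fun k k' hk hk' => blk_unique hs.1 (hs.2 k x hk) (hs.2 k' x hk')
    have := mm_pos j
    calc _ ≤ 1 / (mm j : ℝ) * 1 := by gcongr
      _ = _ := mul_one _

theorem Fn.filter {w : Option ℕ} {f : ℕ →₀ ℝ} (h : Fn w f) (p : ℕ → Prop) [DecidablePred p] :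
    Fn w (f.filter p) := by
  induction h with
  | leaf n c h0 h1 =>
    by_cases hn : p n
    · rw [Finsupp.filter_single_of_pos _ hn]; exact Fn.leaf n c h0 h1
    · rw [Finsupp.filter_single_of_neg _ hn, ← Finsupp.single_zero n]
      exact Fn.leaf n 0 le_rfl zero_le_one
  | node j d a g w hd hs hg hsp ih =>
    have hne : ∀ l x, (g l).filter p x ≠ 0 → g l x ≠ 0 := by
      intro l x hx h0
      apply hx
      rw [Finsupp.filter_apply, h0, ite_self]
    rw [Finsupp.filter_smul, Finsupp.filter_sum]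
    refine Fn.node j d a (fun l => (g l).filter p) w hd ⟨hs.1, fun l x hx => hs.2 l x (hne l x hx)⟩
      ih fun hj l hl => ?_
    obtain ⟨v, h1, h2, h3⟩ := hsp hj l hl
    exact ⟨v, h1, h2, fun s hsl x hx => h3 s hsl x (hne s x hx)⟩

theorem exists_of_pr_ne {f : ℕ →₀ ℝ} {y : ℕ → ℝ} (h : pr f y ≠ 0) : ∃ x, f x ≠ 0 ∧ y x ≠ 0 := by
  by_contra hc
  push Not at hc
  exact h (pr_eq_zero fun n => by
    by_cases h0 : f n = 0
    · rw [h0, zero_mul]
    · rw [hc n h0, mul_zero])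

theorem count {a b : ℕ → ℕ} {g : ℕ → ℕ →₀ ℝ} {Y : ℕ → ℕ → ℝ} (hg : Blk a fun l => g l)
    (hY : Blk b Y) (d : ℕ) (B : Finset ℕ) {C α β : ℝ} (hC0 : 0 ≤ C) (hβ : 0 ≤ β)
    (hC : ∀ l k, pr (g l) (Y k) ≤ C)
    (hB : ∀ l, ∀ B' : Finset ℕ, ∑ k ∈ B', pr (g l) (Y k) ≤ α + β * B'.card) :
    ∑ k ∈ B, pr (∑ l ∈ range d, g l) (Y k) ≤ C * d ^ 2 + d * α + β * B.card := by
  classical
  set mu : ℕ → Prop := fun k => ∃ l < d, b k ≤ a l ∧ a l < b (k + 1) with hmu
  set Bs : ℕ → Finset ℕ := fun l => B.filter fun k => ¬ mu k ∧ pr (g l) (Y k) ≠ 0 with hBs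
  have h1 : (B.filter mu).card ≤ d := by
    have : B.filter mu ⊆
        (range d).biUnion fun l => B.filter fun k => b k ≤ a l ∧ a l < b (k + 1) := by
      intro k hk
      obtain ⟨hk, l, hl, h⟩ := mem_filter.1 hk
      exact mem_biUnion.2 ⟨l, mem_range.2 hl, mem_filter.2 ⟨hk, h⟩⟩
    refine (card_le_card this).trans (card_biUnion_le.trans ?_)
    refine (sum_le_sum (g := fun _ => 1) fun l _ => card_le_one.2 fun k hk k' hk' => ?_).trans
      (by simp)
    exact blk_unique hY.1 (mem_filter.1 hk).2 (mem_filter.1 hk').2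
  have h2 : ∑ l ∈ range d, (Bs l).card ≤ B.card := by
    rw [← card_biUnion]
    · exact card_le_card (biUnion_subset.2 fun l _ => filter_subset _ _)
    · have key : ∀ l l', l < l' → l' < d → Disjoint (Bs l) (Bs l') := by
        intro l l' hl hl'
        rw [disjoint_left]
        intro k hk hk'
        obtain ⟨-, hm, hp⟩ := mem_filter.1 hk
        obtain ⟨-, -, hp'⟩ := mem_filter.1 hk'
        obtain ⟨x, hx1, hx2⟩ := exists_of_pr_ne hp
        obtain ⟨x', hx1', hx2'⟩ := exists_of_pr_ne hp'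
        have := hg.2 l x hx1
        have := hg.2 l' x' hx1'
        have := hY.2 k x hx2
        have := hY.2 k x' hx2'
        have := hg.1 (show l + 1 ≤ l' from hl)
        exact hm ⟨l', hl', by omega, by omega⟩
      intro l hl l' hl' hne
      rcases lt_or_gt_of_ne hne with h | h
      · exact key l l' h (by simpa using hl')
      · exact (key l' l h (by simpa using hl)).symm
  have h3 : ∀ l, ∑ k ∈ B, pr (g l) (Y k) ≤ C * d + (α + β * (Bs l).card) := by
    intro l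
    rw [← sum_filter_add_sum_filter_not B mu]
    refine add_le_add ?_ ?_
    · refine (sum_le_card_nsmul _ _ C fun k _ => hC l k).trans ?_
      rw [nsmul_eq_mul, mul_comm]
      exact mul_le_mul_of_nonneg_left (by exact_mod_cast h1) hC0
    · refine le_trans (le_of_eq ?_) (hB l (Bs l))
      simp only [hBs]
      rw [← filter_filter, sum_filter_ne_zero]
  simp only [map_sum, LinearMap.sum_apply]
  rw [sum_comm]
  refine (sum_le_sum fun l _ => h3 l).trans ?_
  rw [sum_add_distrib, sum_add_distrib, ← mul_sum (range d) (fun l => ((Bs l).card : ℝ)) β]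
  simp only [sum_const, card_range, nsmul_eq_mul]
  have : (∑ l ∈ range d, ((Bs l).card : ℝ)) ≤ B.card := by exact_mod_cast h2
  nlinarith [mul_le_mul_of_nonneg_left this hβ]

theorem node_bound {b : ℕ → ℕ} {Y : ℕ → ℕ → ℝ} (hY : Blk b Y) {C α β : ℝ} (hC0 : 0 ≤ C)
    (hα : 0 ≤ α) (hβ : 0 ≤ β) (hC : ∀ v g, Fn v g → ∀ k, pr g (Y k) ≤ C)
    (hB : ∀ v g, Fn v g → ∀ B' : Finset ℕ, ∑ k ∈ B', pr g (Y k) ≤ α + β * B'.card)
    {w : ℕ} {f : ℕ →₀ ℝ} (hf : Fn (some w) f) (B : Finset ℕ) {M : ℝ} (hM : nn w ≤ M) :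
    ∑ k ∈ B, pr f (Y k) ≤ (C * M ^ 2 + M * α + β * B.card) / mm w := by
  cases hf with
  | node j d a g w hd hs hg hsp =>
    have h1 := count hs hY d B hC0 hβ (fun l => hC _ _ (hg l)) (fun l => hB _ _ (hg l))
    have hd' : (d : ℝ) ≤ M := le_trans (by exact_mod_cast hd) hM
    simp only [map_smul, LinearMap.smul_apply, smul_eq_mul]
    rw [← mul_sum, one_div, ← div_eq_inv_mul]
    refine div_le_div_of_nonneg_right (h1.trans ?_) (mm_pos _).le
    gcongr

theorem leaf_bound {b : ℕ → ℕ} {Y : ℕ → ℕ → ℝ} (hY : Blk b Y) {C : ℝ} (hC0 : 0 ≤ C)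
    (hC : ∀ v g, Fn v g → ∀ k, pr g (Y k) ≤ C) {f : ℕ →₀ ℝ} (hf : Fn none f) (B : Finset ℕ) :
    ∑ k ∈ B, pr f (Y k) ≤ C := by
  refine sum_le_of_unique B hC0 (hC _ _ hf) ?_
  cases hf with
  | leaf n c h0 h1 =>
    intro k k' hk hk'
    rw [pr_single] at hk hk'
    exact blk_unique hY.1 (hY.2 k n (right_ne_zero_of_mul hk)) (hY.2 k' n (right_ne_zero_of_mul hk'))

theorem basic_aux {b : ℕ → ℕ} {Y : ℕ → ℕ → ℝ} (hY : Blk b Y) {C D η : ℝ} (hC0 : 0 ≤ C)
    (hCD : C ≤ D) (hη : 0 ≤ η) (hC : ∀ v g, Fn v g → ∀ k, pr g (Y k) ≤ C) (J : ℕ)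
    (hhi : ∀ w ≥ J, ∀ f, Fn (some w) f → ∀ B : Finset ℕ, ∑ k ∈ B, pr f (Y k) ≤ D + η * B.card)
    (r : ℕ) : ∀ v f, Fn v f → ∀ B : Finset ℕ,
      ∑ k ∈ B, pr f (Y k) ≤ D * (mm J : ℝ) ^ (r + 1) + (C / 2 ^ r + η) * B.card := by
  have hD : 0 ≤ D := hC0.trans hCD
  have hm := two_le_mm' J
  induction r with
  | zero =>
    intro v f hf B
    refine (sum_le_card_nsmul _ _ C fun k _ => hC v f hf k).trans ?_
    rw [nsmul_eq_mul]
    have : 0 ≤ D * (mm J : ℝ) ^ (0 + 1) := by positivity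
    have : 0 ≤ η * B.card := by positivity
    simp only [pow_zero, div_one]
    nlinarith
  | succ r ih =>
    intro v f hf B
    have h1 : D ≤ D * (mm J : ℝ) ^ (r + 1 + 1) :=
      le_mul_of_one_le_right hD (one_le_pow₀ (by linarith))
    have h2 : 0 ≤ C / 2 ^ (r + 1) * B.card := by positivity
    have h3 : 0 ≤ η * B.card := by positivity
    rcases v with _ | w
    · have := leaf_bound hY hC0 hC hf B
      nlinarith
    · by_cases hw : J ≤ w
      · have := hhi w hw f hf B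
        nlinarith
      · have h4 := node_bound hY hC0 (by positivity) (by positivity) hC ih hf B (M := mm J)
          (by exact_mod_cast nn_le_mm (not_le.1 hw))
        refine h4.trans ((div_le_div_of_nonneg_left (by positivity) two_pos (two_le_mm' w)).trans ?_)
        have h5 : C * (mm J : ℝ) ^ 2 ≤ D * (mm J : ℝ) ^ (r + 1 + 1) := by
          gcongr
          · linarith
          · omega
        have h6 : (C / 2 ^ r + η) * B.card / 2 = C / 2 ^ (r + 1) * B.card + η * B.card / 2 := by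
          rw [pow_succ]; field_simp
        have h7 : (mm J : ℝ) * (D * (mm J : ℝ) ^ (r + 1)) = D * (mm J : ℝ) ^ (r + 1 + 1) := by ring
        rw [add_div, h6, h7]
        nlinarith

/-- the basic inequality -/
theorem basic_ineq {b : ℕ → ℕ} {Y : ℕ → ℕ → ℝ} (hY : Blk b Y) {C D η : ℝ} (hC0 : 0 ≤ C)
    (hCD : C ≤ D) (hη : 0 ≤ η) (hC : ∀ v g, Fn v g → ∀ k, pr g (Y k) ≤ C) (J : ℕ)
    (hhi : ∀ w ≥ J, ∀ f, Fn (some w) f → ∀ B : Finset ℕ, ∑ k ∈ B, pr f (Y k) ≤ D + η * B.card) :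
    ∀ v f, Fn v f → ∀ B : Finset ℕ,
      ∑ k ∈ B, pr f (Y k) ≤ D * (nn J / (mm J : ℝ) ^ 2) + (C / (mm J : ℝ) ^ 2 + η) * B.card := by
  intro v f hf B
  refine (basic_aux hY hC0 hCD hη hC J hhi (mm J ^ 2) v f hf B).trans (add_le_add (le_of_eq ?_) ?_)
  · have := mm_pos J
    congr 1
    rw [eq_div_iff (by positivity), ← pow_add, nn]
    push_cast
    rfl
  · have := mm_pos J
    have h1 : ((mm J : ℝ)) ^ 2 ≤ 2 ^ (mm J ^ 2) := by
      exact_mod_cast (Nat.lt_two_pow_self (n := mm J ^ 2)).le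
    gcongr

/-- rapidly increasing sequences -/
structure RIS (b t : ℕ → ℕ) (Y : ℕ → ℕ → ℝ) : Prop where
  blk : Blk b Y
  mono : Monotone t
  le1 : ∀ v g, Fn v g → ∀ k, pr g (Y k) ≤ 1
  lo : ∀ w f k, Fn (some w) f → w < t k → pr f (Y k) ≤ 4 / mm w
  hi : ∀ w f k, Fn (some w) f → t (k + 1) ≤ w → pr f (Y k) ≤ (1 / 2) ^ k

theorem sum_half_le (B : Finset ℕ) : ∑ k ∈ B, (1 / 2 : ℝ) ^ k ≤ 2 := by
  have := summable_geometric_two.sum_le_tsum B (fun k _ => by positivity)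
  rwa [tsum_geometric_two] at this

theorem RIS.sum_le {b t : ℕ → ℕ} {Y : ℕ → ℕ → ℝ} (h : RIS b t Y) {w : ℕ} {f : ℕ →₀ ℝ}
    (hf : Fn (some w) f) (B : Finset ℕ) : ∑ k ∈ B, pr f (Y k) ≤ 3 + 4 / mm w * B.card := by
  have hp : (0 : ℝ) ≤ 4 / mm w := by have := mm_pos w; positivity
  have h1 : ∀ k ∈ B, pr f (Y k) ≤
      4 / mm w + (1 / 2) ^ k + if t k ≤ w ∧ w < t (k + 1) then 1 else 0 := by
    intro k _
    have hq : (0 : ℝ) ≤ (1 / 2) ^ k := by positivity
    split_ifs with h2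
    · linarith [h.le1 _ _ hf k]
    · by_cases h3 : w < t k
      · linarith [h.lo w f k hf h3]
      · linarith [h.hi w f k hf (by omega)]
  refine (sum_le_sum h1).trans ?_
  rw [sum_add_distrib, sum_add_distrib]
  have h2 := sum_half_le B
  have h3 : ∑ k ∈ B, (if t k ≤ w ∧ w < t (k + 1) then (1 : ℝ) else 0) ≤ 1 := by
    refine sum_le_of_unique B zero_le_one (fun k => by split_ifs <;> simp) fun k k' hk hk' => ?_
    exact blk_unique h.mono (by_contra fun h => hk (if_neg h)) (by_contra fun h => hk' (if_neg h))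
  simp only [sum_const, nsmul_eq_mul]
  linarith

theorem RIS.basic {b t : ℕ → ℕ} {Y : ℕ → ℕ → ℝ} (h : RIS b t Y) (J : ℕ) :
    ∀ v f, Fn v f → ∀ B : Finset ℕ, ∑ k ∈ B, pr f (Y k) ≤
      3 * (nn J / (mm J : ℝ) ^ 2) + (1 / (mm J : ℝ) ^ 2 + 4 / mm J) * B.card := by
  have := mm_pos J
  refine basic_ineq h.blk zero_le_one (by norm_num) (by positivity)
    h.le1 J fun w hw f hf B => (h.sum_le hf B).trans ?_
  have : (mm J : ℝ) ≤ mm w := by exact_mod_cast mm_mono hw
  gcongr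

/-- level one vectors -/
noncomputable def lv (Y : ℕ → ℕ → ℝ) (s J : ℕ) : ℕ → ℝ :=
  ((mm J : ℝ) / nn J) • ∑ k ∈ Ico s (s + nn J), Y k

theorem pr_lv (f : ℕ →₀ ℝ) (Y : ℕ → ℕ → ℝ) (s J : ℕ) :
    pr f (lv Y s J) = (mm J : ℝ) / nn J * ∑ k ∈ Ico s (s + nn J), pr f (Y k) := by
  simp [lv]

theorem RIS.lv_a {b t : ℕ → ℕ} {Y : ℕ → ℕ → ℝ} (h : RIS b t Y) (s J : ℕ) {v : Option ℕ}
    {f : ℕ →₀ ℝ} (hf : Fn v f) : pr f (lv Y s J) ≤ 9 := by
  have h1 := h.basic J v f hf (Ico s (s + nn J))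
  have hm := two_le_mm' J
  have hn := nn_pos J
  rw [pr_lv]
  refine (mul_le_mul_of_nonneg_left h1 (by positivity)).trans ?_
  simp only [Nat.card_Ico, add_tsub_cancel_left]
  have : (mm J : ℝ) / nn J * (3 * (nn J / (mm J : ℝ) ^ 2) + (1 / (mm J : ℝ) ^ 2 + 4 / mm J) * nn J)
      = 4 / mm J + 4 := by field_simp; ring
  rw [this]
  have : (4 : ℝ) / mm J ≤ 2 := by rw [div_le_iff₀ (by linarith)]; linarith
  linarith

theorem RIS.lv_b {b t : ℕ → ℕ} {Y : ℕ → ℕ → ℝ} (h : RIS b t Y) (s J : ℕ) {w : ℕ}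
    {f : ℕ →₀ ℝ} (hf : Fn (some w) f) (hw : w < J) : pr f (lv Y s J) ≤ 9 / mm w := by
  have hm := two_le_mm' J
  have hn := nn_pos J
  have hw0 := mm_pos w
  have h1 := node_bound h.blk zero_le_one (by positivity) (by positivity) h.le1 (h.basic J) hf
    (Ico s (s + nn J)) (M := mm J) (by exact_mod_cast nn_le_mm hw)
  rw [pr_lv]
  refine (mul_le_mul_of_nonneg_left h1 (by positivity)).trans ?_
  simp only [Nat.card_Ico, add_tsub_cancel_left]
  rw [← mul_div_assoc]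
  refine div_le_div_of_nonneg_right ?_ hw0.le
  have : (mm J : ℝ) / nn J * (1 * (mm J : ℝ) ^ 2 + mm J * (3 * (nn J / (mm J : ℝ) ^ 2)) +
      (1 / (mm J : ℝ) ^ 2 + 4 / mm J) * nn J) = (mm J : ℝ) ^ 3 / nn J + 1 / mm J + 7 := by
    field_simp; ring
  rw [this]
  have h2 : (1 : ℝ) / mm J ≤ 1 := by rw [div_le_iff₀ (by linarith)]; linarith
  have h3 : (mm J : ℝ) ^ 3 / nn J ≤ 1 := by
    rw [div_le_one hn]; exact_mod_cast cube_le_nn J
  linarith

theorem RIS.lv_c {b t : ℕ → ℕ} {Y : ℕ → ℕ → ℝ} (h : RIS b t Y) (s J : ℕ) {w : ℕ}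
    {f : ℕ →₀ ℝ} (hf : Fn (some w) f) (hw : J < w) : pr f (lv Y s J) ≤ 9 / mm J := by
  have hm := two_le_mm' J
  have hn := nn_pos J
  have hw0 := mm_pos w
  have h1 := h.sum_le hf (Ico s (s + nn J))
  rw [pr_lv]
  refine (mul_le_mul_of_nonneg_left h1 (by positivity)).trans ?_
  simp only [Nat.card_Ico, add_tsub_cancel_left]
  have h2 : (mm J : ℝ) ^ 2 ≤ mm w := by exact_mod_cast sq_le_mm hw
  have h3 : (mm J : ℝ) ^ 3 ≤ nn J := by exact_mod_cast cube_le_nn J
  have : (mm J : ℝ) / nn J * (3 + 4 / mm w * nn J) = 3 * mm J / nn J + 4 * mm J / mm w := by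
    field_simp
  rw [this]
  have h4 : 3 * (mm J : ℝ) / nn J ≤ 3 / mm J := by
    rw [div_le_div_iff₀ hn (by linarith)]; nlinarith
  have h5 : 4 * (mm J : ℝ) / mm w ≤ 4 / mm J := by
    rw [div_le_div_iff₀ hw0 (by linarith)]; nlinarith
  have h6 : (3 : ℝ) / mm J + 4 / mm J ≤ 9 / mm J := by
    rw [← add_div]; gcongr; norm_num
  linarith

theorem lv_supp {Y : ℕ → ℕ → ℝ} {s J x : ℕ} (hx : lv Y s J x ≠ 0) :
    ∃ k, s ≤ k ∧ k < s + nn J ∧ Y k x ≠ 0 := by
  by_contra hc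
  push Not at hc
  apply hx
  simp only [lv, Pi.smul_apply, Finset.sum_apply, smul_eq_mul]
  rw [sum_eq_zero fun k hk => hc k (mem_Ico.1 hk).1 (mem_Ico.1 hk).2, mul_zero]

/-- level two estimate -/
theorem RIS.level_two {b t : ℕ → ℕ} {Y : ℕ → ℕ → ℝ} (h : RIS b t Y) {J : ℕ} (hJ : Odd J)
    {s j : ℕ → ℕ} (hs : ∀ i, s (i + 1) = s i + nn (j i)) (hj : Function.Injective j)
    (hJj : ∀ i, J < j i) (hdis : ∀ i k x, x ∈ code (j i) → Y k x = 0)
    {v : Option ℕ} {f : ℕ →₀ ℝ} (hf : Fn v f) :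
    ∑ i ∈ range (nn J), pr f (lv Y (s i) (j i)) ≤ 27 * (nn J / (mm J : ℝ) ^ 2) := by
  have hm := two_le_mm' J
  have hn := nn_pos J
  have hsm : Monotone s := monotone_nat_of_le_succ fun i => by rw [hs]; omega
  have hblk : Blk (fun i => b (s i)) fun i => lv Y (s i) (j i) := by
    refine ⟨fun i i' hi => h.blk.1 (hsm hi), fun i x hx => ?_⟩
    obtain ⟨k, h1, h2, h3⟩ := lv_supp hx
    have h4 := h.blk.2 k x h3
    have h5 := h.blk.1 h1
    have h6 := h.blk.1 (show k + 1 ≤ s (i + 1) by rw [hs]; omega)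
    exact ⟨h5.trans h4.1, h4.2.trans_le h6⟩
  have hm1 := mm_pos (J + 1)
  have key : ∀ w, J < w → ∀ g, Fn (some w) g → ∀ i,
      pr g (lv Y (s i) (j i)) ≤ 9 / mm (J + 1) + if j i = w then 9 else 0 := by
    intro w hw g hg i
    have hp : (0 : ℝ) ≤ 9 / mm (J + 1) := by positivity
    split_ifs with h1
    · linarith [h.lv_a (s i) (j i) hg]
    · rw [add_zero]
      rcases lt_or_gt_of_ne h1 with h2 | h2
      · refine (h.lv_c (s i) (j i) hg h2).trans ?_
        have : (mm (J + 1) : ℝ) ≤ mm (j i) := by exact_mod_cast mm_mono (hJj i)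
        gcongr
      · refine (h.lv_b (s i) (j i) hg h2).trans ?_
        have : (mm (J + 1) : ℝ) ≤ mm w := by exact_mod_cast mm_mono hw
        gcongr
  have key2 : ∀ w, J < w → ∀ g, Fn (some w) g → ∀ B : Finset ℕ,
      ∑ i ∈ B, pr g (lv Y (s i) (j i)) ≤ 9 + 9 / mm (J + 1) * B.card := by
    intro w hw g hg B
    refine (sum_le_sum fun i _ => key w hw g hg i).trans ?_
    rw [sum_add_distrib]
    have h3 : ∑ i ∈ B, (if j i = w then (9 : ℝ) else 0) ≤ 9 := by
      refine sum_le_of_unique B (by norm_num) (fun k => by split_ifs <;> norm_num)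
        fun k k' hk hk' => hj ?_
      have h1 : j k = w := by_contra fun h => hk (if_neg h)
      have h2 : j k' = w := by_contra fun h => hk' (if_neg h)
      rw [h1, h2]
    simp only [sum_const, nsmul_eq_mul]
    linarith
  have h1 := basic_ineq hblk (C := 9) (D := 9) (η := 9 / (mm J : ℝ) ^ 2) (by norm_num) le_rfl
    (by positivity) (fun v g hg i => h.lv_a _ _ hg) J ?_ v f hf (range (nn J))
  · refine h1.trans (le_of_eq ?_)
    rw [card_range]
    field_simp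
    ring
  intro w hw g hg B
  rcases hw.lt_or_eq with hw | rfl
  · refine (key2 w hw g hg B).trans ?_
    have : (mm J : ℝ) ^ 2 ≤ mm (J + 1) := by exact_mod_cast sq_le_mm (Nat.lt_succ_self J)
    gcongr
  · cases hg with
    | node _ d a g w hd hgs hg hsp =>
      replace hsp := hsp hJ
      obtain ⟨l0, hl0⟩ : ∃ l0, ∀ l < d, l ≠ l0 → (∃ i, w l = some (j i)) →
          ∀ i, pr (g l) (lv Y (s i) (j i)) = 0 := by
        classical
        by_cases he : ((range d).filter fun l => ∃ i, w l = some (j i)).Nonempty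
        · refine ⟨max' _ he, fun l hl hne hm i => ?_⟩
          obtain ⟨hd0, i0, hi0⟩ := mem_filter.1 (max'_mem _ he)
          have hle := le_max' _ l (mem_filter.2 ⟨mem_range.2 hl, hm⟩ :
            l ∈ (range d).filter fun l => ∃ i, w l = some (j i))
          obtain ⟨v, hv1, -, hv3⟩ := hsp _ (mem_range.1 hd0)
          rw [hi0] at hv1
          obtain rfl := Option.some.inj hv1
          by_contra hc
          obtain ⟨x, hx1, hx2⟩ := exists_of_pr_ne hc
          obtain ⟨k, -, -, hk⟩ := lv_supp hx2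
          exact hk (hdis i0 k x (hv3 l (lt_of_le_of_ne hle hne) x hx1))
        · exact ⟨0, fun l hl _ hm => absurd ⟨l, mem_filter.2 ⟨mem_range.2 hl, hm⟩⟩ he⟩
      have h2 : ∀ l ∈ range d, ∑ i ∈ B, pr (g l) (lv Y (s i) (j i)) ≤
          9 / mm (J + 1) * B.card + if l = l0 then 9 else 0 := by
        intro l hl
        obtain ⟨v, hv1, hv2, -⟩ := hsp l (mem_range.1 hl)
        have hgl : Fn (some v) (g l) := hv1 ▸ hg l
        split_ifs with h3
        · linarith [key2 v hv2 _ hgl B]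
        · rw [add_zero]
          by_cases h4 : ∃ i, w l = some (j i)
          · rw [sum_eq_zero fun i _ => hl0 l (mem_range.1 hl) h3 h4 i]
            positivity
          · refine (sum_le_card_nsmul _ _ ((9 : ℝ) / mm (J + 1)) fun i _ => ?_).trans
              (by rw [nsmul_eq_mul, mul_comm])
            have := key v hv2 _ hgl i
            rwa [if_neg (fun h5 => h4 ⟨i, by rw [hv1, h5]⟩), add_zero] at this
      simp only [map_smul, LinearMap.smul_apply, smul_eq_mul, map_sum, LinearMap.sum_apply]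
      rw [← mul_sum, sum_comm]
      refine (mul_le_mul_of_nonneg_left (sum_le_sum h2) (by positivity)).trans ?_
      rw [sum_add_distrib]
      have h3 : ∑ l ∈ range d, (if l = l0 then (9 : ℝ) else 0) ≤ 9 := by
        rw [sum_ite_eq']; split_ifs <;> norm_num
      have hd' : (d : ℝ) ≤ nn J := by exact_mod_cast hd
      simp only [sum_const, card_range, nsmul_eq_mul]
      calc _ ≤ 1 / (mm J : ℝ) * (nn J * (9 / mm (J + 1) * B.card) + 9) := by gcongr
        _ = 9 / mm J + 9 / (mm J : ℝ) ^ 2 * B.card := by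
          rw [mm_succ]; push_cast; field_simp; ring
        _ ≤ _ := by
          have : (9 : ℝ) / mm J ≤ 9 := by rw [div_le_iff₀ (by linarith)]; linarith
          linarith

end Pool.Agent.Lib.MP_4f5308_an
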