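import Pool.Agent.Lib.MP_4f5308_an.Defs

namespace Pool.Agent.Lib.MP_4f5308_an

open Finset Topology

variable {X Y Z : Type} [NormedAddCommGroup X] [NormedSpace ℝ X]
  [NormedAddCommGroup Y] [NormedSpace ℝ Y] [NormedAddCommGroup Z] [NormedSpace ℝ Z]

/-- bounded below on a subspace -/
def Bb (T : X →L[ℝ] Y) (N : Submodule ℝ X) : Prop := ∃ c > 0, ∀ x ∈ N, c * ‖x‖ ≤ ‖T x‖

/-- infinite dimensional -/
def Inf (N : Submodule ℝ X) : Prop := ¬ FiniteDimensional ℝ N

/-- not bounded below on any infinite-dimensional subspace of `M` -/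
def Small (T : X →L[ℝ] Y) (M : Submodule ℝ X) : Prop := ∀ N ≤ M, Inf N → ¬ Bb T N

theorem Inf.mono {N M : Submodule ℝ X} (h : Inf N) (hle : N ≤ M) : Inf M :=
  fun _ => h (Submodule.finiteDimensional_of_le hle)

theorem Inf.inf_ker {G : Type} [AddCommGroup G] [Module ℝ G] [FiniteDimensional ℝ G]
    {M : Submodule ℝ X} (h : Inf M) (R : X →ₗ[ℝ] G) : Inf (M ⊓ LinearMap.ker R) := by
  intro hf
  apply h
  have h1 : FiniteDimensional ℝ (LinearMap.ker (R.domRestrict M)) := by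
    have : LinearMap.ker (R.domRestrict M) = (M ⊓ LinearMap.ker R).comap M.subtype := by
      ext x; simp
    rw [this]
    exact (Submodule.comapSubtypeEquivOfLe (inf_le_left : M ⊓ LinearMap.ker R ≤ M)).symm.finiteDimensional
  have h2 : FiniteDimensional ℝ (M ⧸ LinearMap.ker (R.domRestrict M)) :=
    (LinearMap.quotKerEquivRange (R.domRestrict M)).symm.finiteDimensional
  exact Module.Finite.of_submodule_quotient (LinearMap.ker (R.domRestrict M))

theorem Inf.exists_ne {M : Submodule ℝ X} (h : Inf M) : ∃ x ∈ M, x ≠ 0 := by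
  by_contra hc
  push Not at hc
  have : M = ⊥ := (Submodule.eq_bot_iff M).2 hc
  apply h
  rw [this]
  infer_instance

theorem Inf.exists_unit {M : Submodule ℝ X} (h : Inf M) : ∃ x ∈ M, ‖x‖ = 1 := by
  obtain ⟨x, hx, h0⟩ := h.exists_ne
  refine ⟨‖x‖⁻¹ • x, M.smul_mem _ hx, ?_⟩
  rw [norm_smul, norm_inv, norm_norm, inv_mul_cancel₀ (norm_ne_zero_iff.2 h0)]

theorem Inf.map {N : Submodule ℝ X} (h : Inf N) (R : X →L[ℝ] Y) (hR : Bb R N) :
    Inf (N.map (R : X →ₗ[ℝ] Y)) := by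
  intro hf
  apply h
  obtain ⟨c, hc, hb⟩ := hR
  let φ : N →ₗ[ℝ] N.map (R : X →ₗ[ℝ] Y) := (R : X →ₗ[ℝ] Y).submoduleMap N
  refine FiniteDimensional.of_injective φ ?_
  rw [injective_iff_map_eq_zero]
  intro x hx
  have h1 : R x = 0 := congrArg Subtype.val hx
  have h2 := hb x x.2
  rw [h1, norm_zero] at h2
  have : ‖(x : X)‖ ≤ 0 := by
    by_contra h3
    push Not at h3
    have := mul_pos hc h3
    linarith
  exact Subtype.ext (norm_le_zero_iff.1 this)

theorem inf_span_of_li {x : ℕ → X} (h : LinearIndependent ℝ x) :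
    Inf (Submodule.span ℝ (Set.range x)) := by
  intro hf
  exact Module.Finite.not_linearIndependent_of_infinite _ (linearIndependent_span h)

theorem Small.mono {T : X →L[ℝ] Y} {M N : Submodule ℝ X} (h : Small T M) (hle : N ≤ M) :
    Small T N := fun P hP => h P (hP.trans hle)

theorem Small.congr {T T' : X →L[ℝ] Y} {M : Submodule ℝ X} (h : Small T M)
    (he : ∀ x ∈ M, T x = T' x) : Small T' M := by
  rintro N hN hi ⟨c, hc, hb⟩
  exact h N hN hi ⟨c, hc, fun x hx => by rw [he x (hN hx)]; exact hb x hx⟩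

theorem Small.exists_unit {T : X →L[ℝ] Y} {M N : Submodule ℝ X} (h : Small T M) (hle : N ≤ M)
    (hi : Inf N) {ε : ℝ} (hε : 0 < ε) : ∃ x ∈ N, ‖x‖ = 1 ∧ ‖T x‖ < ε := by
  have := h N hle hi
  unfold Bb at this
  push Not at this
  obtain ⟨x, hx, hlt⟩ := this ε hε
  have h0 : x ≠ 0 := by
    rintro rfl
    simp at hlt
  have hp : 0 < ‖x‖ := norm_pos_iff.2 h0
  refine ⟨‖x‖⁻¹ • x, N.smul_mem _ hx, ?_, ?_⟩
  · rw [norm_smul, norm_inv, norm_norm, inv_mul_cancel₀ hp.ne']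
  · rw [map_smul, norm_smul, norm_inv, norm_norm, inv_mul_lt_iff₀ hp]
    linarith

theorem small_of {T : X →L[ℝ] Y} {M : Submodule ℝ X}
    (h : ∀ N ≤ M, Inf N → ∀ ε > 0, ∃ x ∈ N, x ≠ 0 ∧ ‖T x‖ ≤ ε * ‖x‖) : Small T M := by
  rintro N hN hi ⟨c, hc, hb⟩
  obtain ⟨x, hx, h0, hle⟩ := h N hN hi (c / 2) (by positivity)
  have := hb x hx
  have hp : 0 < ‖x‖ := norm_pos_iff.2 h0
  nlinarith [mul_pos hc hp]

/-- triangular systems: norm estimate on tails -/
theorem chain_bound (T : X →L[ℝ] Y) (y : ℕ → X) (φ : ℕ → X →L[ℝ] ℝ) {ε : ℝ} (hε : 0 ≤ ε)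
    (h1 : ∀ n x, |φ n x| ≤ ‖x‖) (h2 : ∀ n, φ n (y n) = ‖y n‖)
    (h3 : ∀ n m, n < m → φ n (y m) = 0) (h4 : ∀ n, ‖T (y n)‖ ≤ ε * (1 / 4) ^ n * ‖y n‖)
    (L k : ℕ) (a : ℕ → ℝ) (ha : ∀ i < k, a i = 0) :
    ‖T (∑ i ∈ range L, a i • y i)‖ ≤ 2 * ε * (1 / 4) ^ k * ‖∑ i ∈ range L, a i • y i‖ := by
  suffices H : ∀ t k, L ≤ k + t → ∀ a : ℕ → ℝ, (∀ i < k, a i = 0) →
      ‖T (∑ i ∈ range L, a i • y i)‖ ≤ 2 * ε * (1 / 4) ^ k * ‖∑ i ∈ range L, a i • y i‖ from
    H L k (by omega) a ha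
  have Z : ∀ k, L ≤ k → ∀ a : ℕ → ℝ, (∀ i < k, a i = 0) →
      ‖T (∑ i ∈ range L, a i • y i)‖ ≤ 2 * ε * (1 / 4) ^ k * ‖∑ i ∈ range L, a i • y i‖ := by
    intro k hk a ha
    have : ∑ i ∈ range L, a i • y i = 0 :=
      sum_eq_zero fun i hi => by rw [ha i (by have := mem_range.1 hi; omega), zero_smul]
    simp [this]
  intro t
  induction t with
  | zero => intro k hk; exact Z k (by omega)
  | succ t ih =>
    intro k hk a ha
    by_cases hkL : L ≤ k
    · exact Z k hkL a ha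
    set x := ∑ i ∈ range L, a i • y i with hx
    set x' := ∑ i ∈ range L, (Function.update a k 0) i • y i with hx'
    have hxx : x = a k • y k + x' := by
      have hm : k ∈ range L := mem_range.2 (by omega)
      rw [hx, hx', ← add_sum_erase _ _ hm, ← add_sum_erase _ _ hm]
      simp only [Function.update_self, zero_smul, zero_add]
      congr 1
      exact sum_congr rfl fun i hi => by rw [Function.update_of_ne (ne_of_mem_erase hi)]
    have ha' : ∀ i < k + 1, Function.update a k 0 i = 0 := by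
      intro i hi
      by_cases hik : i = k
      · subst hik; simp
      · rw [Function.update_of_ne hik]; exact ha i (by omega)
    have hφ' : φ k x' = 0 := by
      rw [hx', map_sum]
      refine sum_eq_zero fun i _ => ?_
      by_cases hi : i < k + 1
      · rw [ha' i hi]; simp
      · rw [map_smul, h3 k i (by omega)]; simp
    have hφ : |a k| * ‖y k‖ ≤ ‖x‖ := by
      have := h1 k x
      rw [hxx, map_add, hφ', map_smul, h2, add_zero, smul_eq_mul, abs_mul, abs_norm] at this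
      rw [hxx]; exact this
    have hx'n : ‖x'‖ ≤ 2 * ‖x‖ := by
      have : x' = x - a k • y k := by rw [hxx]; abel
      rw [this]
      refine (norm_sub_le _ _).trans ?_
      rw [norm_smul, Real.norm_eq_abs]
      linarith
    have h5 := ih (k + 1) (by omega) _ ha'
    rw [← hx'] at h5
    have hp : 0 ≤ ε * (1 / 4 : ℝ) ^ k := by positivity
    calc ‖T x‖ = ‖a k • T (y k) + T x'‖ := by rw [hxx, map_add, map_smul]
      _ ≤ |a k| * ‖T (y k)‖ + ‖T x'‖ := by
        refine (norm_add_le _ _).trans ?_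
        rw [norm_smul, Real.norm_eq_abs]
      _ ≤ |a k| * (ε * (1 / 4) ^ k * ‖y k‖) + 2 * ε * (1 / 4) ^ (k + 1) * (2 * ‖x‖) := by
        gcongr
        · exact h4 k
        · exact h5.trans (by gcongr)
      _ = ε * (1 / 4) ^ k * (|a k| * ‖y k‖) + ε * (1 / 4) ^ k * ‖x‖ := by ring
      _ ≤ ε * (1 / 4) ^ k * ‖x‖ + ε * (1 / 4) ^ k * ‖x‖ := by gcongr
      _ = _ := by ring

theorem li_of_chain (y : ℕ → X) (φ : ℕ → X →L[ℝ] ℝ) (h2 : ∀ n, φ n (y n) ≠ 0)
    (h3 : ∀ n m, n < m → φ n (y m) = 0) : LinearIndependent ℝ y := by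
  rw [linearIndependent_iff']
  intro s g hs i
  induction i using Nat.strong_induction_on with
  | _ i ih =>
    intro hi
    have := congrArg (φ i) hs
    rw [map_sum, map_zero, sum_eq_single i] at this
    · rw [map_smul, smul_eq_mul] at this
      exact (mul_eq_zero.1 this).resolve_right (h2 i)
    · intro j hj hji
      rcases lt_or_gt_of_ne hji with h | h
      · rw [ih j h hj]; simp
      · rw [map_smul, h3 i j h]; simp
    · intro h; exact absurd hi h

theorem exists_range_of_mem_span {y : ℕ → X} {x : X} (hx : x ∈ Submodule.span ℝ (Set.range y)) :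
    ∃ (L : ℕ) (a : ℕ → ℝ), x = ∑ i ∈ range L, a i • y i := by
  obtain ⟨c, rfl⟩ := Finsupp.mem_span_range_iff_exists_finsupp.1 hx
  obtain ⟨L, hL⟩ := c.support.exists_nat_subset_range
  exact ⟨L, c, Finsupp.sum_of_support_subset _ hL _ (by simp)⟩

theorem Small.exists_sub {T : X →L[ℝ] Y} {M N : Submodule ℝ X} (h : Small T M) (hle : N ≤ M)
    (hi : Inf N) {ε : ℝ} (hε : 0 < ε) :
    ∃ N1 ≤ N, Inf N1 ∧ ∀ x ∈ N1, ‖T x‖ ≤ ε * ‖x‖ := by
  have step : ∀ (n : ℕ) (P : {P : Submodule ℝ X // P ≤ N ∧ Inf P}), ∃ (x : X) (φ : X →L[ℝ] ℝ),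
      x ∈ P.1 ∧ ‖x‖ = 1 ∧ ‖T x‖ < ε / 2 * (1 / 4) ^ n ∧ ‖φ‖ = 1 ∧ φ x = ‖x‖ := by
    intro n P
    obtain ⟨x, hx, h1, h2⟩ := h.exists_unit (P.2.1.trans hle) P.2.2
      (ε := ε / 2 * (1 / 4) ^ n) (by positivity)
    obtain ⟨φ, h3, h4⟩ := exists_dual_vector ℝ x (by rw [h1]; exact one_ne_zero)
    exact ⟨x, φ, hx, h1, h2, h3, by simpa using h4⟩
  choose x φ hxP hx1 hxT hφ1 hφx using step
  let P : ℕ → {P : Submodule ℝ X // P ≤ N ∧ Inf P} := fun n =>
    Nat.rec ⟨N, le_rfl, hi⟩ (fun n Q => ⟨Q.1 ⊓ LinearMap.ker (φ n Q : X →ₗ[ℝ] ℝ),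
      inf_le_left.trans Q.2.1, Q.2.2.inf_ker _⟩) n
  have hP : ∀ n, (P (n + 1)).1 = (P n).1 ⊓ LinearMap.ker (φ n (P n) : X →ₗ[ℝ] ℝ) := fun n => rfl
  have hanti : Antitone fun n => (P n).1 :=
    antitone_nat_of_succ_le fun n => by rw [hP]; exact inf_le_left
  have h3 : ∀ n m, n < m → φ n (P n) (x m (P m)) = 0 := by
    intro n m hnm
    have : x m (P m) ∈ (P (n + 1)).1 := hanti hnm (hxP m (P m))
    rw [hP] at this
    exact this.2
  refine ⟨Submodule.span ℝ (Set.range fun n => x n (P n)), ?_, ?_, ?_⟩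
  · rw [Submodule.span_le]
    rintro _ ⟨n, rfl⟩
    exact (P n).2.1 (hxP n (P n))
  · exact inf_span_of_li (li_of_chain _ (fun n => φ n (P n))
      (fun n => by rw [hφx, hx1]; exact one_ne_zero) h3)
  · intro z hz
    obtain ⟨L, a, rfl⟩ := exists_range_of_mem_span hz
    have := chain_bound T (fun n => x n (P n)) (fun n => φ n (P n)) (ε := ε / 2) (by positivity)
      (fun n z => by simpa [hφ1] using (φ n (P n)).le_opNorm z) (fun n => hφx n _) h3
      (fun n => by rw [hx1, mul_one]; exact (hxT n _).le) L 0 a (by simp)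
    refine this.trans (le_of_eq ?_)
    ring

theorem Small.add {S T : X →L[ℝ] Y} {M : Submodule ℝ X} (hS : Small S M) (hT : Small T M) :
    Small (S + T) M := by
  refine small_of fun N hN hi ε hε => ?_
  obtain ⟨N1, h1, h2, h3⟩ := hS.exists_sub hN hi (ε := ε / 2) (by positivity)
  obtain ⟨x, hx, hx1, hx2⟩ := hT.exists_unit (h1.trans hN) h2 (ε := ε / 2) (by positivity)
  refine ⟨x, h1 hx, by rintro rfl; simp at hx1, ?_⟩
  have := h3 x hx
  rw [hx1] at this ⊢
  refine (norm_add_le (S x) (T x)).trans ?_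
  linarith

theorem Small.neg {S : X →L[ℝ] Y} {M : Submodule ℝ X} (hS : Small S M) : Small (-S) M := by
  rintro N hN hi ⟨c, hc, hb⟩
  exact hS N hN hi ⟨c, hc, fun x hx => by simpa using hb x hx⟩

theorem Small.sub {S T : X →L[ℝ] Y} {M : Submodule ℝ X} (hS : Small S M) (hT : Small T M) :
    Small (S - T) M := by
  rw [sub_eq_add_neg]; exact hS.add hT.neg

theorem Bb.of_comp {R : Y →L[ℝ] Z} {T : X →L[ℝ] Y} {N : Submodule ℝ X} (h : Bb (R.comp T) N) :
    Bb T N := by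
  obtain ⟨c, hc, hb⟩ := h
  refine ⟨c / (‖R‖ + 1), by positivity, fun x hx => ?_⟩
  have h1 := (hb x hx).trans (R.le_opNorm (T x))
  rw [div_mul_eq_mul_div, div_le_iff₀ (by positivity)]
  nlinarith [norm_nonneg (T x)]

theorem Small.comp_left {T : X →L[ℝ] Y} {M : Submodule ℝ X} (h : Small T M) (R : Y →L[ℝ] Z) :
    Small (R.comp T) M := fun N hN hi hb => h N hN hi hb.of_comp

theorem Small.comp_right {T : Y →L[ℝ] Z} (h : Small T ⊤) (R : X →L[ℝ] Y) (M : Submodule ℝ X) :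
    Small (T.comp R) M := by
  intro N _ hi hb
  refine h _ le_top (hi.map R hb.of_comp) ?_
  obtain ⟨c, hc, hb⟩ := hb
  refine ⟨c / (‖R‖ + 1), by positivity, ?_⟩
  rintro _ ⟨x, hx, rfl⟩
  have h1 := hb x hx
  have h2 := R.le_opNorm x
  rw [div_mul_eq_mul_div, div_le_iff₀ (by positivity)]
  change c * ‖R x‖ ≤ ‖T (R x)‖ * _
  change c * ‖x‖ ≤ ‖T (R x)‖ at h1
  nlinarith [norm_nonneg (T (R x)), norm_nonneg R, mul_le_mul_of_nonneg_left h2 hc.le,
    mul_le_mul_of_nonneg_left h1 (norm_nonneg R)]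

theorem Small.of_bb_left {T : X →L[ℝ] Y} {R : Y →L[ℝ] Z} {M : Submodule ℝ X}
    (h : Small (R.comp T) M) (hR : Bb R ⊤) : Small T M := by
  rintro N hN hi ⟨c, hc, hb⟩
  obtain ⟨d, hd, hR⟩ := hR
  refine h N hN hi ⟨d * c, by positivity, fun x hx => ?_⟩
  have := hR (T x) trivial
  change _ ≤ ‖R (T x)‖
  nlinarith [hb x hx]

theorem Small.map {T : Y →L[ℝ] Z} {R : X →L[ℝ] Y} {M : Submodule ℝ X}
    (h : Small (T.comp R) M) (hR : Bb R M) : Small T (M.map (R : X →ₗ[ℝ] Y)) := by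
  rintro N hN hi ⟨c, hc, hb⟩
  obtain ⟨d, hd, hR⟩ := hR
  refine h (M ⊓ N.comap (R : X →ₗ[ℝ] Y)) inf_le_left ?_ ⟨c * d, by positivity, fun x hx => ?_⟩
  · intro hf
    apply hi
    have : N = (M ⊓ N.comap (R : X →ₗ[ℝ] Y)).map (R : X →ₗ[ℝ] Y) := by
      apply le_antisymm
      · intro y hy
        obtain ⟨x, hx, rfl⟩ := hN hy
        exact ⟨x, ⟨hx, hy⟩, rfl⟩
      · rintro _ ⟨x, hx, rfl⟩
        exact hx.2
    rw [this]
    infer_instance
  · have h1 := hb (R x) hx.2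
    have h2 := hR x hx.1
    change _ ≤ ‖T (R x)‖
    nlinarith

theorem isEmbedding_iff_bb (T : X →L[ℝ] Y) (N : Submodule ℝ X) :
    IsEmbedding (T.comp N.subtypeL) ↔ Bb T N := by
  constructor
  · intro h
    obtain ⟨K, hK⟩ := ContinuousLinearMap.antilipschitz_of_isEmbedding _ h
    refine ⟨1 / (K + 1), by positivity, fun x hx => ?_⟩
    have := hK.le_mul_norm (map_zero _) ⟨x, hx⟩
    rw [div_mul_eq_mul_div, div_le_iff₀ (by positivity)]
    change ‖x‖ ≤ K * ‖T x‖ at this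
    nlinarith [norm_nonneg (T x)]
  · rintro ⟨c, hc, hb⟩
    have : AntilipschitzWith (c⁻¹).toNNReal (T.comp N.subtypeL) := by
      refine ContinuousLinearMap.antilipschitz_of_bound _ fun x => ?_
      rw [Real.coe_toNNReal _ (by positivity), le_inv_mul_iff₀ hc]
      exact hb x x.2
    exact this.isEmbedding (T.comp N.subtypeL).continuous

theorem Bb.closure {T : X →L[ℝ] Y} {N : Submodule ℝ X} (h : Bb T N) :
    Bb T N.topologicalClosure := by
  obtain ⟨c, hc, hb⟩ := h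
  refine ⟨c, hc, fun x hx => ?_⟩
  have : IsClosed {x : X | c * ‖x‖ ≤ ‖T x‖} := isClosed_le (by fun_prop) (by fun_prop)
  exact closure_minimal (fun x hx => hb x hx) this hx

theorem ss_iff_small (T : X →L[ℝ] Y) (M : Submodule ℝ X) :
    StrictlySingular (T.comp M.subtypeL) ↔ Small T M := by
  constructor
  · intro h N hN hi ⟨c, hc, hb⟩
    apply h
    refine ⟨(N.comap M.subtype).topologicalClosure, Submodule.isClosed_topologicalClosure _,
      ?_, ?_⟩
    · refine Inf.mono (N := N.comap M.subtype) ?_ (Submodule.le_topologicalClosure _)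
      intro hf
      exact hi (Submodule.comapSubtypeEquivOfLe hN).finiteDimensional
    · rw [isEmbedding_iff_bb]
      exact Bb.closure ⟨c, hc, fun x hx => hb x hx⟩
  · rintro h ⟨N, -, hi, hb⟩
    rw [isEmbedding_iff_bb] at hb
    obtain ⟨c, hc, hb⟩ := hb
    refine h (N.map M.subtype) (Submodule.map_subtype_le _ _)
      (Inf.map hi M.subtypeL ⟨1, one_pos, fun x _ => by simp⟩) ⟨c, hc, ?_⟩
    rintro _ ⟨x, hx, rfl⟩
    exact hb x hx

end Pool.Agent.Lib.MP_4f5308_an
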